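import Pool.Agent.MP_d5a4a4_al.Quiver

/-!
Mutation of exceptional pairs of quiver representations.
-/

namespace Pool.Agent.MP_d5a4a4_al

open Module Function

set_option linter.unusedSectionVars false

variable {J Ar : Type} [Fintype J] [Fintype Ar] {s t : Ar → J}

namespace QRep

variable {X Y Z N : QRep s t}

section pow
variable (H : Type) [AddCommGroup H] [Module ℚ H] [FiniteDimensional ℚ H]

/-- The power `Hom(H, X)`. -/
def pow (X : QRep s t) : QRep s t where
  V j := H →ₗ[ℚ] X.V j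
  f a := LinearMap.llcomp ℚ H _ _ (X.f a)

theorem dim_pow (X : QRep s t) : (pow H X).dim = (finrank ℚ H : ℝ) • X.dim := by
  funext j
  change ((finrank ℚ (H →ₗ[ℚ] X.V j) : ℕ) : ℝ) = _
  simp [finrank_linearMap, dim]

variable {H}

/-- Evaluation. -/
def ev (X : QRep s t) (h : H) : C0 (pow H X) X := fun _ => LinearMap.applyₗ h

/-- Coevaluation. -/
def co (X : QRep s t) (v : H →ₗ[ℚ] ℚ) : C0 X (pow H X) := fun _ => LinearMap.smulRightₗ v

theorem isHom_ev (h : H) : IsHom (ev X h) := fun _ _ => rfl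

theorem isHom_co (v : H →ₗ[ℚ] ℚ) : IsHom (co X v) := fun a x =>
  LinearMap.ext fun h => (map_smul (X.f a) (v h) x).symm

theorem sum_co_ev (j : J) (ξ : (pow H X).V j) :
    ∑ b, co X ((Module.finBasis ℚ H).coord b) j (ev X (Module.finBasis ℚ H b) j ξ) = ξ := by
  let ξ' : H →ₗ[ℚ] X.V j := ξ
  change ∑ b, ((Module.finBasis ℚ H).coord b).smulRight (ξ' (Module.finBasis ℚ H b)) = ξ'
  refine LinearMap.ext fun h => ?_
  conv_rhs => rw [← (Module.finBasis ℚ H).sum_repr h, map_sum]
  simp

theorem HomZ.pow_right (h : HomZ Z X) : HomZ Z (pow H X) := fun φ hφ => by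
  funext j; ext x
  exact LinearMap.ext fun y => congrArg (fun χ : C0 Z X => χ j x) (h _ ((isHom_ev y).comp hφ))

theorem HomZ.pow_left (h : HomZ X Z) : HomZ (pow H X) Z := fun φ hφ => by
  funext j
  refine LinearMap.ext fun ξ => ?_
  rw [← sum_co_ev j ξ, map_sum]
  exact Finset.sum_eq_zero fun b _ =>
    congrArg (fun χ : C0 X Z => χ j _) (h _ (hφ.comp (isHom_co _)))

theorem Perp.pow_right (h : Perp Z X) : Perp Z (pow H X) :=
  h.1.pow_right.perp (by rw [dim_pow, eul_smul_right, h.eul, mul_zero])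

theorem Perp.pow_left (h : Perp X Z) : Perp (pow H X) Z :=
  h.1.pow_left.perp (by rw [dim_pow, eul_smul_left, h.eul, mul_zero])

theorem ExtZ.pow_left (h : ExtZ X N) : ExtZ (pow H X) N := by
  intro ξ
  choose ψ hψ using fun b => h fun a => ξ a ∘ₗ co X ((Module.finBasis ℚ H).coord b) (s a)
  refine ⟨fun j => ∑ b, ψ b j ∘ₗ ev X (Module.finBasis ℚ H b) j, ?_⟩
  funext a
  refine LinearMap.ext fun x => ?_
  conv_rhs => rw [← sum_co_ev (s a) x, map_sum]
  rw [d_apply, LinearMap.sum_apply, LinearMap.sum_apply, map_sum, ← Finset.sum_sub_distrib]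
  exact Finset.sum_congr rfl fun b _ =>
    congrArg (fun ζ : C1 X N => ζ a (ev X (Module.finBasis ℚ H b) (s a) x)) (hψ b)

theorem hom_to_pow (hX : Exc X) {g : C0 X (pow H X)} (hg : IsHom g) : ∃ v, g = co X v := by
  obtain ⟨j₀, x₀, hx₀⟩ := hX.exists_ne
  obtain ⟨lam, hlam⟩ := Module.Projective.exists_dual_eq_one ℚ hx₀
  let g₀ : H →ₗ[ℚ] X.V j₀ := g j₀ x₀
  refine ⟨lam ∘ₗ g₀, ?_⟩
  funext j; ext x
  refine LinearMap.ext fun h => ?_
  obtain ⟨c, hc⟩ := hX.brick _ ((isHom_ev h).comp hg)
  have h1 : g₀ h = c • x₀ := hc j₀ x₀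
  refine (hc j x).trans ?_
  change c • x = lam (g₀ h) • x
  rw [h1, map_smul, hlam, smul_eq_mul, mul_one]

theorem hom_from_pow (hX : Brick X) {g : C0 (pow H X) X} (hg : IsHom g) : ∃ h, g = ev X h := by
  choose c hc using fun b => hX _ (hg.comp (isHom_co ((Module.finBasis ℚ H).coord b)))
  refine ⟨∑ b, c b • Module.finBasis ℚ H b, ?_⟩
  funext j
  refine LinearMap.ext fun ξ => ?_
  let ξ' : H →ₗ[ℚ] X.V j := ξ
  change g j ξ = ξ' (∑ b, c b • Module.finBasis ℚ H b)
  conv_lhs => rw [← sum_co_ev j ξ]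
  rw [map_sum, map_sum]
  exact Finset.sum_congr rfl fun b _ => (hc b j _).trans (map_smul ξ' _ _).symm

theorem ev_surj {h : H} (hh : h ≠ 0) (j : J) : Surjective (ev X h j) := by
  obtain ⟨lam, hlam⟩ := Module.Projective.exists_dual_eq_one ℚ hh
  intro x
  exact ⟨co X lam j x, by change lam h • x = x; rw [hlam, one_smul]⟩

end pow

/-- The universal map attached to a space of morphisms. -/
def univ (H : Submodule ℚ (C0 Y X)) : C0 Y (pow H X) := fun j =>
  { toFun := fun y =>
      { toFun := fun φ => φ.1 j y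
        map_add' := fun _ _ => rfl
        map_smul' := fun _ _ => rfl }
    map_add' := fun y y' => LinearMap.ext fun φ => map_add (φ.1 j) y y'
    map_smul' := fun c y => LinearMap.ext fun φ => map_smul (φ.1 j) c y }

theorem isHom_univ {H : Submodule ℚ (C0 Y X)} (hH : H ≤ LinearMap.ker (d Y X)) : IsHom (univ H) :=
  fun a y => LinearMap.ext fun φ => mem_ker.mp (hH φ.2) a y

theorem univ_inj_or_surj (hX : Exc X) (hY : Exc Y) (hXY : ExtZ X Y) :
    (∀ j, Injective (univ (LinearMap.ker (d Y X)) j)) ∨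
      ∀ j, Surjective (univ (LinearMap.ker (d Y X)) j) := by
  have key : ∀ n, ∀ H : Submodule ℚ (C0 Y X), finrank ℚ H = n → H ≤ LinearMap.ker (d Y X) →
      (∀ j, Surjective (univ H j)) ∨ ∀ j y, (∀ φ ∈ LinearMap.ker (d Y X), φ j y = 0) → y = 0 := by
    intro n
    induction n using Nat.strong_induction_on with
    | _ n ih =>
    intro H hn hH
    by_contra hc
    rw [not_or] at hc
    obtain ⟨hc1, hc2⟩ := hc
    have hu := isHom_univ hH
    have h0 : HomZ X hu.imRep := by
      intro φ hφ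
      by_contra hφ0
      obtain ⟨v, hv⟩ := hom_to_pow hX (hu.isHom_imIncl.comp hφ)
      have hv0 : v ≠ 0 := by
        rintro rfl
        apply hφ0; funext j; ext x
        apply hu.imIncl_inj j
        refine (congrArg (fun χ : C0 X (pow H X) => χ j x) hv).trans ?_
        refine Eq.trans ?_ (map_zero (hu.imIncl j)).symm
        exact LinearMap.ext fun h => zero_smul ℚ x
      obtain ⟨f₁, hf₁⟩ : ∃ f₁ : H, v f₁ = 1 := by
        obtain ⟨f₀, hf₀⟩ : ∃ f₀, v f₀ ≠ 0 := by
          by_contra hc; push Not at hc; exact hv0 (LinearMap.ext hc)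
        exact ⟨(v f₀)⁻¹ • f₀, by rw [map_smul, smul_eq_mul, inv_mul_cancel₀ hf₀]⟩
      have hlt : finrank ℚ ((LinearMap.ker v).map H.subtype) < n := by
        rw [Submodule.finrank_map_subtype_eq, ← hn]
        exact Submodule.finrank_lt (fun e => hv0 (LinearMap.ker_eq_top.mp e))
      have h1 := (ih _ hlt _ rfl ((Submodule.map_subtype_le _ _).trans hH)).resolve_right hc2
      apply hc1
      intro j ξ
      let ξ' : H →ₗ[ℚ] X.V j := ξ
      obtain ⟨y, hy⟩ := h1 j (ξ' ∘ₗ Submodule.inclusion (Submodule.map_subtype_le _ _))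
      obtain ⟨y', hy'⟩ := (φ j (ξ' f₁ - f₁.1 j y)).2
      refine ⟨y + y', LinearMap.ext fun f => ?_⟩
      have a1 : (f - v f • f₁).1 ∈ (LinearMap.ker v).map H.subtype :=
        ⟨f - v f • f₁, by simp [hf₁], rfl⟩
      have a2 : (f - v f • f₁).1 j y = ξ' (f - v f • f₁) := LinearMap.congr_fun hy ⟨_, a1⟩
      have a3 : f.1 j y' = v f • (ξ' f₁ - f₁.1 j y) :=
        (LinearMap.congr_fun hy' f).trans
          (LinearMap.congr_fun (congrArg (fun χ : C0 X (pow H X) => χ j (ξ' f₁ - f₁.1 j y)) hv) f)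
      change f.1 j (y + y') = ξ' f
      simp only [Submodule.coe_sub, Submodule.coe_smul, Pi.sub_apply, Pi.smul_apply,
        LinearMap.sub_apply, LinearMap.smul_apply, map_sub, map_smul] at a2
      rw [map_add, a3, smul_sub]
      linear_combination (norm := abel) a2
    rcases inj_or_zero hY.brick hXY hu (fun _ h => h.pow_left) h0 with h1 | h1
    · refine hc2 fun j y hy => h1 j ?_
      rw [map_zero]
      exact LinearMap.ext fun φ => hy _ (hH φ.2)
    · refine hc1 fun j ξ => ⟨0, ?_⟩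
      let ξ' : H →ₗ[ℚ] X.V j := ξ
      refine LinearMap.ext fun f => ?_
      have : f = 0 := by
        ext j y
        exact LinearMap.congr_fun (congrArg (fun χ : C0 Y (pow H X) => χ j y) h1) f
      rw [this]
      exact (map_zero ξ').symm
  rcases key _ _ rfl le_rfl with h | h
  · exact Or.inr h
  · left
    intro j
    rw [← LinearMap.ker_eq_bot, eq_bot_iff]
    intro y hy
    have hy' : univ (LinearMap.ker (d Y X)) j y = 0 := hy
    exact h j y fun φ hφ => LinearMap.congr_fun hy' ⟨φ, hφ⟩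

theorem ext_dichotomy (hX : Exc X) (hY : Exc Y) (hXY : ExtZ X Y) (h : ¬ HomZ Y X) :
    (∀ N, ExtZ X N → ExtZ Y N) ∨ ∀ N, ExtZ N Y → ExtZ N X := by
  have hu := isHom_univ (le_refl (LinearMap.ker (d Y X)))
  rcases univ_inj_or_surj hX hY hXY with h1 | h1
  · exact Or.inl fun N hN => hN.pow_left.of_inj hu h1
  · right
    simp only [HomZ, not_forall] at h
    obtain ⟨φ, hφ, hφ0⟩ := h
    have : (⟨φ, mem_ker.mpr hφ⟩ : LinearMap.ker (d Y X)) ≠ 0 := fun e => hφ0 (congrArg Subtype.val e)
    exact fun N hN => (hN.of_surj hu h1).of_surj (isHom_ev _) (ev_surj this)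

theorem extZ_of_not_homZ (hX : Exc X) (hY : Exc Y) (hXY : ExtZ X Y) (h : ¬ HomZ Y X) :
    ExtZ Y X := by
  rcases ext_dichotomy hX hY hXY h with h1 | h1
  · exact h1 _ hX.1
  · exact h1 _ hY.1

/-- The cocycle of the universal extension. -/
def cocyc (W : Submodule ℚ (C1 Y X)) (a : Ar) : Y.V (s a) →ₗ[ℚ] (pow W X).V (t a) where
  toFun y :=
    { toFun := fun w => w.1 a y
      map_add' := fun _ _ => rfl
      map_smul' := fun _ _ => rfl }
  map_add' y y' := LinearMap.ext fun w => map_add (w.1 a) y y'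
  map_smul' c y := LinearMap.ext fun w => map_smul (w.1 a) c y

/-- The universal extension. -/
def extRep (W : Submodule ℚ (C1 Y X)) : QRep s t where
  V j := (pow W X).V j × Y.V j
  f a := (((pow W X).f a).coprod (cocyc W a)).prod (Y.f a ∘ₗ LinearMap.snd ℚ _ _)

theorem extRep_f (W : Submodule ℚ (C1 Y X)) (a : Ar) (ξ : (pow W X).V (s a)) (y : Y.V (s a)) :
    (extRep W).f a (ξ, y) = ((pow W X).f a ξ + cocyc W a y, Y.f a y) := rfl

theorem ses_extRep (W : Submodule ℚ (C1 Y X)) :
    SES (A := pow W X) (B := extRep W) (C := Y) (fun _ => LinearMap.inl ℚ _ _)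
      (fun _ => LinearMap.snd ℚ _ _) :=
  ⟨fun a x => ((extRep_f W a x 0).trans (by rw [map_zero, map_zero, add_zero]; rfl)).symm,
    fun _ _ => rfl,
    fun _ => LinearMap.inl_injective, fun _ => LinearMap.snd_surjective,
    fun _ => Function.Exact.inl_snd⟩

theorem SES.brick {A B C : QRep s t} {i : C0 A B} {p : C0 B C} (hs : SES i p) (hAC : HomZ A C)
    (hC : Brick C) (hBA : HomZ B A) : Brick B := by
  intro φ hφ
  obtain ⟨ψ, h1, h2⟩ := hs.factor_right (hs.hp.comp hφ) fun j x =>
    congrArg (fun χ : C0 A C => χ j x) (hAC _ ((hs.hp.comp hφ).comp hs.hi))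
  obtain ⟨c, hc⟩ := hC ψ h1
  obtain ⟨χ, h3, h4⟩ := hs.factor_left (hφ.sub (isHom_id.smul c)) fun j x => by
    have := h2 j x
    rw [hc] at this
    simp only [Pi.sub_apply, Pi.smul_apply, LinearMap.sub_apply, LinearMap.smul_apply, map_sub,
      map_smul, LinearMap.id_apply]
    rw [this]; exact sub_self _
  refine ⟨c, fun j x => ?_⟩
  have := h4 j x
  rw [hBA χ h3] at this
  simp only [Pi.zero_apply, LinearMap.zero_apply, map_zero] at this
  exact sub_eq_zero.mp this.symm

theorem eul_mut {x y : J → ℝ} (hx : eul s t x x = 1) (hy : eul s t y y = 1) (hxy : eul s t x y = 0)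
    {e : ℝ} (he : e * e = 1) :
    eul s t (e • (y + -eul s t y x • x)) (e • (y + -eul s t y x • x)) = 1 ∧
      eul s t (e • (y + -eul s t y x • x)) x = 0 := by
  simp only [eul_smul_left, eul_smul_right, eul_add_left, eul_add_right, hx, hy, hxy]
  constructor
  · linear_combination he
  · ring

theorem left_mutation (hX : Exc X) (hY : Exc Y) (h : Perp X Y) :
    ∃ L : QRep s t, Exc L ∧ Perp L X ∧
      (∃ e : ℝ, e * e = 1 ∧ L.dim = e • (Y.dim + -eul s t Y.dim X.dim • X.dim)) ∧
      ∀ Z, (Perp Z X → Perp Z Y → Perp Z L) ∧ (Perp X Z → Perp Y Z → Perp L Z) := by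
  by_cases hH : HomZ Y X
  · obtain ⟨W, hW⟩ := Submodule.exists_isCompl (LinearMap.range (d Y X))
    have hs := ses_extRep W
    have hdim : (extRep W).dim = (1 : ℝ) • (Y.dim + -eul s t Y.dim X.dim • X.dim) := by
      have a1 := Submodule.finrank_add_eq_of_isCompl hW
      have a2 := eul_eq Y X
      rw [homZ_iff.mp hH, ← a1] at a2
      rw [hs.dim, dim_pow, one_smul, add_comm, a2]
      push_cast; congr 2; ring
    have hm := eul_mut hX.2 hY.2 h.eul (e := 1) (by ring)
    rw [← hdim] at hm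
    have h0 : HomZ (extRep W) X := by
      intro g hg
      obtain ⟨w, hw⟩ := hom_from_pow hX.brick (hg.comp hs.hi)
      let ψ : C0 Y X := fun j => g j ∘ₗ LinearMap.inr ℚ _ _
      have hg1 : ∀ j (ξ : (pow W X).V j) (y : Y.V j), g j (ξ, y) = ev X w j ξ + ψ j y := by
        intro j ξ y
        rw [← hw]
        exact (congrArg (g j) (Prod.ext (add_zero ξ).symm (zero_add y).symm)).trans
          (map_add (g j) (ξ, 0) (0, y))
      have hd : d Y X (-ψ) = w.1 := by
        funext a; ext y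
        have a1 := hg a (0, y)
        have a2 : (extRep W).f a (0, y) = (cocyc W a y, Y.f a y) :=
          (extRep_f W a 0 y).trans (by rw [map_zero, zero_add])
        rw [a2, hg1, hg1, map_zero, zero_add] at a1
        rw [d_apply]
        have a3 : ev X w (t a) (cocyc W a y) = w.1 a y := rfl
        simp only [Pi.neg_apply, LinearMap.neg_apply, map_neg]
        rw [← a1, a3]; abel
      have hw0 : w.1 = 0 := (Submodule.disjoint_def.mp hW.disjoint) _ ⟨_, hd⟩ w.2
      have hψ : ψ = 0 := by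
        have := hH _ (mem_ker.mp (LinearMap.mem_ker.mpr (hd.trans hw0)))
        exact neg_eq_zero.mp this
      funext j
      refine LinearMap.ext fun ⟨ξ, y⟩ => ?_
      have hw1 : w = 0 := Subtype.ext hw0
      refine (hg1 j ξ y).trans ?_
      rw [hψ, hw1]
      exact (add_zero _).trans (map_zero (show W →ₗ[ℚ] X.V j from ξ))
    exact ⟨extRep W, (hs.brick h.1.pow_left hY.brick h0.pow_right).exc hm.1, h0.perp hm.2,
      ⟨1, by ring, hdim⟩,
      fun Z => ⟨fun a b => hs.perp_mid a.pow_right b, fun a b => hs.perp_mid' a.pow_left b⟩⟩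
  have hE := (extZ_of_not_homZ hX hY h.2 hH)
  have hu := isHom_univ (le_refl (LinearMap.ker (d Y X)))
  have hpd : (pow (LinearMap.ker (d Y X)) X).dim = eul s t Y.dim X.dim • X.dim := by
    rw [dim_pow, hE.eul]; rfl
  rcases univ_inj_or_surj hX hY h.2 with h1 | h1
  · have hs := hu.ses_coker h1
    have hdim : hu.cokerRep.dim = (-1 : ℝ) • (Y.dim + -eul s t Y.dim X.dim • X.dim) := by
      have := hs.dim
      rw [hpd] at this
      rw [neg_smul, neg_smul, this]; module
    have hm := eul_mut hX.2 hY.2 h.eul (e := -1) (by ring)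
    rw [← hdim] at hm
    have h0 : HomZ hu.cokerRep X := by
      intro g hg
      obtain ⟨f₀, hf₀⟩ := hom_from_pow hX.brick (hg.comp hs.hp)
      have : f₀ = 0 := by
        ext j y
        have a1 := congrArg (fun χ : C0 (pow (LinearMap.ker (d Y X)) X) X =>
          χ j (univ (LinearMap.ker (d Y X)) j y)) hf₀
        simp only [LinearMap.comp_apply, (hs.exact j).apply_apply_eq_zero, map_zero] at a1
        exact a1.symm
      funext j
      refine LinearMap.ext fun x => ?_
      obtain ⟨ξ, rfl⟩ := hs.surj j x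
      have a1 := congrArg (fun χ : C0 (pow (LinearMap.ker (d Y X)) X) X => χ j ξ) hf₀
      rw [this] at a1
      exact a1.trans (map_zero (show _ →ₗ[ℚ] X.V j from ξ))
    have hp := h0.perp hm.2
    exact ⟨_, ⟨hp.pow_right.2.of_surj hs.hp hs.surj, hm.1⟩, hp, ⟨-1, by ring, hdim⟩,
      fun Z => ⟨fun a b => hs.perp_right b a.pow_right, fun a b => hs.perp_right' b a.pow_left⟩⟩
  · have hs := hu.ses_ker h1
    have hdim : hu.kerRep.dim = (1 : ℝ) • (Y.dim + -eul s t Y.dim X.dim • X.dim) := by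
      have := hs.dim
      rw [hpd] at this
      nth_rewrite 1 [this]; module
    have hm := eul_mut hX.2 hY.2 h.eul (e := 1) (by ring)
    rw [← hdim] at hm
    have hp := (hE.of_inj hs.hi hs.inj).perp hm.2
    refine ⟨_, ⟨extZ_of_le ?_, hm.1⟩, hp, ⟨1, by ring, hdim⟩,
      fun Z => ⟨fun a b => hs.perp_left b a.pow_right, fun a b => hs.perp_left' b a.pow_left⟩⟩
    have a1 := hom_le_of_inj (X := hu.kerRep) hs.hi hs.inj
    have a2 := (hY.1.of_inj hs.hi hs.inj).eul
    rw [hs.dim, eul_add_right, hp.pow_right.eul, add_zero] at a2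
    rw [a2]; exact_mod_cast a1

/-! ### Duality -/

/-- The dual representation of the opposite quiver. -/
def dual (X : QRep s t) : QRep t s where
  V j := Module.Dual ℚ (X.V j)
  f a := (X.f a).dualMap

theorem dim_dual (X : QRep s t) : X.dual.dim = X.dim := by
  funext j
  change ((finrank ℚ (Module.Dual ℚ (X.V j)) : ℕ) : ℝ) = _
  rw [Subspace.dual_finrank_eq]; rfl

theorem dualMap_bij {U V : Type} [AddCommGroup U] [Module ℚ U] [AddCommGroup V] [Module ℚ V]
    [FiniteDimensional ℚ U] [FiniteDimensional ℚ V] :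
    Bijective (Module.Dual.transpose (R := ℚ) (M := U) (M' := V)) := by
  have hi : Injective (Module.Dual.transpose (R := ℚ) (M := U) (M' := V)) := by
    rw [← LinearMap.ker_eq_bot, eq_bot_iff]
    intro φ hφ
    refine LinearMap.ext fun x => ?_
    rw [← sub_eq_zero, ← Module.forall_dual_apply_eq_zero_iff ℚ]
    intro lam
    rw [LinearMap.zero_apply, sub_zero]
    exact LinearMap.congr_fun (LinearMap.congr_fun (LinearMap.mem_ker.mp hφ) lam) x
  refine ⟨hi, (LinearMap.injective_iff_surjective_of_finrank_eq_finrank ?_).mp hi⟩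
  simp [finrank_linearMap, Subspace.dual_finrank_eq, mul_comm]

theorem hom_dual (X Y : QRep s t) : hom Y.dual X.dual = hom X Y := by
  let F : LinearMap.ker (d X Y) →ₗ[ℚ] LinearMap.ker (d Y.dual X.dual) :=
    { toFun := fun φ => ⟨fun j => Module.Dual.transpose (R := ℚ) (φ.1 j), mem_ker.mpr fun a lam =>
        LinearMap.ext fun x => congrArg (show Module.Dual ℚ (Y.V (t a)) from lam)
          (mem_ker.mp φ.2 a x).symm⟩
      map_add' := fun φ ψ => Subtype.ext (funext fun j => map_add _ _ _)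
      map_smul' := fun c φ => Subtype.ext (funext fun j =>
        map_smul (Module.Dual.transpose (R := ℚ)) c (φ.1 j)) }
  refine (LinearEquiv.ofBijective F ⟨fun φ ψ e => ?_, fun ψ => ?_⟩).finrank_eq.symm
  · exact Subtype.ext (funext fun j => dualMap_bij.1 (congrFun (congrArg Subtype.val e) j))
  · choose φ hφ using fun j => dualMap_bij.2 (ψ.1 j)
    refine ⟨⟨φ, mem_ker.mpr fun a x => ?_⟩, Subtype.ext (funext hφ)⟩
    rw [← sub_eq_zero, ← Module.forall_dual_apply_eq_zero_iff ℚ]
    intro lam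
    have := LinearMap.congr_fun (mem_ker.mp ψ.2 a lam) x
    rw [← hφ, ← hφ] at this
    rw [map_sub, sub_eq_zero]
    exact this.symm

theorem extZ_dual : ExtZ Y.dual X.dual ↔ ExtZ X Y := by
  constructor
  · intro h
    have := h.eul
    rw [dim_dual, dim_dual, eul_op, hom_dual] at this
    exact extZ_of_le this.ge
  · intro h
    apply extZ_of_le
    rw [dim_dual, dim_dual, eul_op, hom_dual, h.eul]

theorem perp_dual : Perp Y.dual X.dual ↔ Perp X Y := by
  rw [Perp, Perp, extZ_dual, homZ_iff, homZ_iff, hom_dual]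

theorem exc_dual : Exc X.dual ↔ Exc X := by
  rw [Exc, Exc, extZ_dual, dim_dual, eul_op]

theorem isHom_eval (X : QRep s t) :
    IsHom (X := X) (Y := X.dual.dual) fun j => Module.Dual.eval ℚ (X.V j) := fun _ _ => rfl

theorem eval_bij (X : QRep s t) (j : J) : Bijective (Module.Dual.eval ℚ (X.V j)) :=
  Module.bijective_dual_eval ℚ _

theorem right_mutation (hX : Exc X) (hY : Exc Y) (h : Perp X Y) :
    ∃ R : QRep s t, Exc R ∧ Perp Y R ∧
      (∃ e : ℝ, e * e = 1 ∧ R.dim = e • (X.dim + -eul s t Y.dim X.dim • Y.dim)) ∧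
      ∀ Z, (Perp Z X → Perp Z Y → Perp Z R) ∧ (Perp X Z → Perp Y Z → Perp R Z) := by
  obtain ⟨L, h1, h2, ⟨e, he, h3⟩, h4⟩ :=
    left_mutation (exc_dual.mpr hY) (exc_dual.mpr hX) (perp_dual.mpr h)
  refine ⟨L.dual, exc_dual.mpr h1, ?_, ⟨e, he, ?_⟩, fun Z => ⟨fun a b => ?_, fun a b => ?_⟩⟩
  · exact (perp_dual.mpr h2).of_bij_left' (isHom_eval Y) (eval_bij Y)
  · rw [dim_dual, h3, dim_dual, dim_dual, eul_op]
  · exact (perp_dual.mpr ((h4 Z.dual).2 (perp_dual.mpr b) (perp_dual.mpr a))).of_bij_left'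
      (isHom_eval Z) (eval_bij Z)
  · exact (perp_dual.mpr ((h4 Z.dual).1 (perp_dual.mpr b) (perp_dual.mpr a))).of_bij_right'
      (isHom_eval Z) (eval_bij Z)

/-- The simple representation at a vertex. -/
def simple [DecidableEq J] (s t : Ar → J) (i : J) : QRep s t where
  V j := Fin (if j = i then 1 else 0) → ℚ
  f _ := 0

theorem dim_simple [DecidableEq J] (i : J) : (simple s t i).dim = Pi.single i 1 := by
  funext j
  change ((finrank ℚ (Fin (if j = i then 1 else 0) → ℚ) : ℕ) : ℝ) = _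
  by_cases h : j = i <;> simp [h]

theorem hom_le_sum (X Y : QRep s t) : (hom X Y : ℝ) ≤ ∑ j, X.dim j * Y.dim j := by
  have h0 : finrank ℚ (C0 X Y) = ∑ j, finrank ℚ (X.V j) * finrank ℚ (Y.V j) := by
    rw [finrank_pi_fintype]; simp [finrank_linearMap]
  have h1 : hom X Y ≤ finrank ℚ (C0 X Y) := Submodule.finrank_le _
  rw [h0] at h1
  simp only [dim]
  exact_mod_cast h1

theorem extZ_simple [DecidableEq J] {i j : J}
    (h : eul s t (Pi.single i 1) (Pi.single j 1) = if i = j then 1 else 0) :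
    ExtZ (simple s t i) (simple s t j) := by
  apply extZ_of_le
  refine (hom_le_sum _ _).trans ?_
  rw [dim_simple, dim_simple, h]
  simp [Pi.single_apply, eq_comm]

end QRep

end Pool.Agent.MP_d5a4a4_al
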