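import Mathlib

/-!
Modules over a preprojective algebra, King stability, and reflection functors.
-/

namespace Pool.Agent.MP_d5a4a4_al

open Module Function

set_option linter.unusedSectionVars false

variable {J : Type} [Fintype J] [DecidableEq J]

/-- Edges at a vertex. -/
abbrev Ed (C : J → J → ℕ) (i : J) := Σ j, Fin (C i j)

/-- A module over the preprojective algebra of the graph `C`, realised by subspaces of one space. -/
structure PMod (C : J → J → ℕ) where
  T : Type
  [acg : AddCommGroup T]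
  [mod : Module ℚ T]
  [fd : FiniteDimensional ℚ T]
  M : J → Submodule ℚ T
  f : J → J → ℕ → T →ₗ[ℚ] T
  maps : ∀ i j r, r < C i j → ∀ x ∈ M i, f i j r x ∈ M j
  rel : ∀ i, ∀ x ∈ M i, ∑ p : Ed C i, f p.1 i p.2 (f i p.1 p.2 x) = 0

attribute [instance] PMod.acg PMod.mod PMod.fd

section LinAlg
variable {T K : Type} [AddCommGroup T] [Module ℚ T] [FiniteDimensional ℚ T] [AddCommGroup K]
  [Module ℚ K]

/-- Dimension vector of a family of subspaces. -/
noncomputable def dimS (N : J → Submodule ℚ T) : J → ℝ := fun j => finrank ℚ (N j)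

theorem finrank_map_add_inf (g : T →ₗ[ℚ] K) (S : Submodule ℚ T) :
    finrank ℚ (S.map g) + finrank ℚ (S ⊓ LinearMap.ker g : Submodule ℚ T) = finrank ℚ S := by
  have h := LinearMap.finrank_range_add_finrank_ker (g.domRestrict S)
  rw [LinearMap.range_domRestrict, LinearMap.ker_domRestrict,
    ← Submodule.finrank_map_subtype_eq S, Submodule.map_comap_subtype] at h
  exact h

theorem finrank_pi_sub {ι : Type} [Fintype ι] (N : ι → Submodule ℚ T) :
    finrank ℚ (Submodule.pi Set.univ N) = ∑ p, finrank ℚ (N p) := by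
  let e : Submodule.pi Set.univ N ≃ₗ[ℚ] ∀ p, N p :=
    { toFun := fun y p => ⟨y.1 p, y.2 p trivial⟩
      map_add' := fun _ _ => rfl
      map_smul' := fun _ _ => rfl
      invFun := fun y => ⟨fun p => y p, fun p _ => (y p).2⟩
      left_inv := fun _ => rfl
      right_inv := fun _ => rfl }
  rw [e.finrank_eq, finrank_pi_fintype]

theorem finrank_map_inj {g : T →ₗ[ℚ] K} (hg : Injective g) (S : Submodule ℚ T) :
    finrank ℚ (S.map g) = finrank ℚ S := by
  have := finrank_map_add_inf g S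
  rwa [LinearMap.ker_eq_bot.mpr hg, inf_bot_eq, finrank_bot, add_zero] at this

end LinAlg

namespace PMod

variable {C : J → J → ℕ} (P : PMod C)

/-- Families of subspaces closed under the maps. -/
def Closed (N : J → Submodule ℚ P.T) : Prop :=
  ∀ i j r, r < C i j → ∀ x ∈ N i, P.f i j r x ∈ N j

/-- King stability. -/
def Stable (θ : (J → ℝ) →ₗ[ℝ] ℝ) : Prop :=
  θ (dimS P.M) = 0 ∧ ∀ N, (∀ j, N j ≤ P.M j) → P.Closed N →
    θ (dimS N) ≤ 0 ∧ (θ (dimS N) = 0 → (∀ j, N j = ⊥) ∨ ∀ j, N j = P.M j)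

variable (i : J)

/-- The sum of the neighbouring subspaces. -/
def tilde (N : J → Submodule ℚ P.T) : Submodule ℚ (Ed C i → P.T) :=
  Submodule.pi Set.univ fun p => N p.1

/-- The map out of a vertex. -/
def out : P.T →ₗ[ℚ] (Ed C i → P.T) := LinearMap.pi fun p => P.f i p.1 p.2

/-- The map into a vertex. -/
def inn : (Ed C i → P.T) →ₗ[ℚ] P.T := ∑ p : Ed C i, P.f p.1 i p.2 ∘ₗ LinearMap.proj p

variable {P i}

theorem mem_tilde {N : J → Submodule ℚ P.T} {y : Ed C i → P.T} :
    y ∈ P.tilde i N ↔ ∀ p, y p ∈ N p.1 := by simp [tilde, Submodule.mem_pi]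

theorem inn_apply (y : Ed C i → P.T) : P.inn i y = ∑ p : Ed C i, P.f p.1 i p.2 (y p) := by
  simp [inn]

theorem inn_single (p : Ed C i) (x : P.T) : P.inn i (Pi.single p x) = P.f p.1 i p.2 x := by
  rw [inn_apply, Finset.sum_eq_single p]
  · simp
  · intro b _ hb; simp [hb]
  · simp

theorem finrank_tilde (N : J → Submodule ℚ P.T) :
    (finrank ℚ (P.tilde i N) : ℝ) = ∑ j, C i j * dimS N j := by
  rw [tilde, finrank_pi_sub, Fintype.sum_sigma]
  push_cast
  refine Finset.sum_congr rfl fun j _ => ?_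
  change ∑ _r : Fin (C i j), dimS N j = _
  simp

theorem inn_out {x : P.T} (hx : x ∈ P.M i) : P.inn i (P.out i x) = 0 := by
  rw [inn_apply]; exact P.rel i x hx

theorem out_mem {x : P.T} (hx : x ∈ P.M i) : P.out i x ∈ P.tilde i P.M :=
  mem_tilde.mpr fun p => P.maps _ _ _ p.2.2 x hx

theorem single_mem_tilde {N : J → Submodule ℚ P.T} (p : Ed C i) {x : P.T} (hx : x ∈ N p.1) :
    Pi.single p x ∈ P.tilde i N := mem_tilde.mpr fun q => by
  by_cases h : q = p
  · subst h; simpa using hx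
  · simp [h]

variable (hs : ∀ i j, C i j = C j i) (h0 : ∀ i, C i i = 0)
include hs h0

theorem ed_ne (p : Ed C i) : p.1 ≠ i := fun e => by
  have h1 := p.2.2
  have h2 : C i p.1 = 0 := by rw [e, h0]
  omega

theorem inn_mem {y : Ed C i → P.T} (hy : y ∈ P.tilde i P.M) : P.inn i y ∈ P.M i := by
  rw [inn_apply]
  exact Submodule.sum_mem _ fun p _ => P.maps _ _ _ (p.2.2.trans_eq (hs _ _)) _ (mem_tilde.mp hy p)

theorem tilde_congr {N N' : J → Submodule ℚ P.T} (h : ∀ j, j ≠ i → N j = N' j) :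
    P.tilde i N = P.tilde i N' := by
  ext y; simp only [mem_tilde]
  exact forall_congr' fun p => by rw [h _ (ed_ne hs h0 p)]

theorem tilde_mono {N N' : J → Submodule ℚ P.T} (h : ∀ j, j ≠ i → N j ≤ N' j) :
    P.tilde i N ≤ P.tilde i N' := fun _ hy =>
  mem_tilde.mpr fun p => h _ (ed_ne hs h0 p) (mem_tilde.mp hy p)

theorem exists_replace {K : Type} [AddCommGroup K] [Module ℚ K] [FiniteDimensional ℚ K]
    (K₀ : Submodule ℚ K) (in' : (Ed C i → P.T) →ₗ[ℚ] K) (out' : K →ₗ[ℚ] (Ed C i → P.T))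
    (h1 : ∀ y ∈ P.tilde i P.M, in' y ∈ K₀) (h2 : ∀ k ∈ K₀, out' k ∈ P.tilde i P.M)
    (h3 : ∀ k ∈ K₀, in' (out' k) = 0)
    (h4 : ∀ y ∈ P.tilde i P.M, out' (in' y) = P.out i (P.inn i y)) :
    ∃ P' : PMod C, dimS P'.M = update (dimS P.M) i (finrank ℚ K₀) ∧
      ∀ θ : (J → ℝ) →ₗ[ℝ] ℝ, θ (dimS P'.M) = 0 →
        (∀ (N : J → Submodule ℚ P.T) (Ni : Submodule ℚ K), Ni ≤ K₀ → (∀ j, j ≠ i → N j ≤ P.M j) →
          (∀ j j' r, j ≠ i → j' ≠ i → r < C j j' → ∀ x ∈ N j, P.f j j' r x ∈ N j') →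
          (∀ y ∈ P.tilde i N, in' y ∈ Ni) → (∀ k ∈ Ni, out' k ∈ P.tilde i N) →
          θ (update (dimS N) i (finrank ℚ Ni)) ≤ 0 ∧ (θ (update (dimS N) i (finrank ℚ Ni)) = 0 →
            (Ni = ⊥ ∧ ∀ j, j ≠ i → N j = ⊥) ∨ (Ni = K₀ ∧ ∀ j, j ≠ i → N j = P.M j))) →
        P'.Stable θ := by
  let f' : J → J → ℕ → (P.T × K) →ₗ[ℚ] (P.T × K) := fun j j' r =>
    if j = i then
      (if h : r < C i j' then LinearMap.inl ℚ _ _ ∘ₗ LinearMap.proj (⟨j', ⟨r, h⟩⟩ : Ed C i) ∘ₗ out' ∘ₗ
        LinearMap.snd ℚ _ _ else 0)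
    else if j' = i then
      (if h : r < C i j then LinearMap.inr ℚ _ _ ∘ₗ in' ∘ₗ
        LinearMap.single ℚ (fun _ => P.T) (⟨j, ⟨r, h⟩⟩ : Ed C i) ∘ₗ LinearMap.fst ℚ _ _ else 0)
    else LinearMap.inl ℚ _ _ ∘ₗ P.f j j' r ∘ₗ LinearMap.fst ℚ _ _
  have e1 : ∀ (p : Ed C i) (z : P.T × K), f' i p.1 p.2 z = (out' z.2 p, 0) := fun p z => by
    simp [f']
  have e2 : ∀ (p : Ed C i) (z : P.T × K), f' p.1 i p.2 z = (0, in' (Pi.single p z.1)) := fun p z => by
    simp [f', ed_ne hs h0 p]
  have e3 : ∀ j j' r (z : P.T × K), j ≠ i → j' ≠ i → f' j j' r z = (P.f j j' r z.1, 0) :=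
    fun j j' r z a b => by simp [f', a, b]
  let M' : J → Submodule ℚ (P.T × K) := fun j =>
    if j = i then K₀.map (LinearMap.inr ℚ _ _) else (P.M j).map (LinearMap.inl ℚ _ _)
  have m1 : M' i = K₀.map (LinearMap.inr ℚ _ _) := if_pos rfl
  have m2 : ∀ j, j ≠ i → M' j = (P.M j).map (LinearMap.inl ℚ _ _) := fun j h => if_neg h
  let P' : PMod C :=
    { T := P.T × K
      M := M'
      f := f'
      maps := by
        intro j j' r hr z hz
        by_cases a : j = i
        · subst a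
          have b := ed_ne hs h0 (⟨j', ⟨r, hr⟩⟩ : Ed C j)
          rw [m1] at hz
          obtain ⟨k, hk, rfl⟩ := hz
          rw [m2 _ b, e1 ⟨j', ⟨r, hr⟩⟩]
          exact ⟨_, mem_tilde.mp (h2 k hk) ⟨j', ⟨r, hr⟩⟩, rfl⟩
        rw [m2 _ a] at hz
        obtain ⟨x, hx, rfl⟩ := hz
        by_cases b : j' = i
        · subst b
          rw [m1, e2 ⟨j, ⟨r, hs _ _ ▸ hr⟩⟩]
          exact ⟨_, h1 _ (single_mem_tilde ⟨j, ⟨r, hs _ _ ▸ hr⟩⟩ hx), rfl⟩
        · rw [m2 _ b, e3 _ _ _ _ a b]
          exact ⟨_, P.maps _ _ _ hr x hx, rfl⟩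
      rel := by
        intro j z hz
        by_cases a : j = i
        · subst a
          rw [m1] at hz
          obtain ⟨k, hk, rfl⟩ := hz
          simp only [e1, e2]
          have : ∑ p : Ed C j, ((0, in' (Pi.single p (out' k p))) : P.T × K) =
              LinearMap.inr ℚ _ _ (in' (∑ p : Ed C j, Pi.single p (out' k p))) := by
            rw [map_sum, map_sum]; rfl
          refine this.trans ?_
          rw [Finset.univ_sum_single, h3 k hk, map_zero]
        rw [m2 _ a] at hz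
        obtain ⟨x, hx, rfl⟩ := hz
        have : ∀ p : Ed C j, f' p.1 j p.2 (f' j p.1 p.2 (LinearMap.inl ℚ _ _ x)) =
            LinearMap.inl ℚ _ K (P.f p.1 j p.2 (P.f j p.1 p.2 x)) := by
          rintro ⟨j', r, hr⟩
          by_cases b : j' = i
          · subst b
            have hr' : r < C j' j := hs _ _ ▸ hr
            refine (congrArg _ (e2 ⟨j, ⟨r, hr'⟩⟩ _)).trans ((e1 ⟨j, ⟨r, hr'⟩⟩ _).trans ?_)
            change (out' (in' (Pi.single _ x)) _, 0) = _
            rw [h4 _ (single_mem_tilde ⟨j, ⟨r, hr'⟩⟩ hx), inn_single]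
            rfl
          · rw [e3 _ _ _ _ a b, e3 _ _ _ _ b a]; rfl
        simp only [this]
        rw [← map_sum, P.rel j x hx, map_zero] }
  refine ⟨P', ?_, fun θ hθ H => ⟨hθ, fun N' hN hc => ?_⟩⟩
  · funext j
    by_cases a : j = i
    · subst a
      change ((finrank ℚ (M' j) : ℕ) : ℝ) = _
      rw [m1, finrank_map_inj LinearMap.inr_injective, update_self]
    · change ((finrank ℚ (M' j) : ℕ) : ℝ) = _
      rw [m2 _ a, finrank_map_inj LinearMap.inl_injective, update_of_ne a]; rfl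
  let N₀ : J → Submodule ℚ (P.T × K) := N'
  let N : J → Submodule ℚ P.T := fun j => (N₀ j).comap (LinearMap.inl ℚ _ _)
  let Ni : Submodule ℚ K := (N₀ i).comap (LinearMap.inr ℚ _ _)
  have hN' : ∀ j, N₀ j ≤ M' j := hN
  have hc' : ∀ j j' r, r < C j j' → ∀ z ∈ N₀ j, f' j j' r z ∈ N₀ j' := hc
  have n1 : N₀ i = Ni.map (LinearMap.inr ℚ _ _) := by
    refine (Submodule.map_comap_eq_of_le ((hN' i).trans ?_)).symm
    rw [m1]; exact LinearMap.map_le_range
  have n2 : ∀ j, j ≠ i → N₀ j = (N j).map (LinearMap.inl ℚ _ _) := fun j a => by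
    refine (Submodule.map_comap_eq_of_le ((hN' j).trans ?_)).symm
    rw [m2 _ a]; exact LinearMap.map_le_range
  have hd : dimS N₀ = update (dimS N) i (finrank ℚ Ni) := by
    funext j
    by_cases a : j = i
    · subst a
      rw [dimS, n1, finrank_map_inj LinearMap.inr_injective, update_self]
    · rw [dimS, n2 _ a, finrank_map_inj LinearMap.inl_injective, update_of_ne a]; rfl
  have := H N Ni (fun k hk => by
      have := hN' i hk
      rw [m1] at this
      obtain ⟨k', hk', e⟩ := this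
      rwa [← LinearMap.inr_injective e])
    (fun j a x hx => by
      have := hN' j hx
      rw [m2 _ a] at this
      obtain ⟨x', hx', e⟩ := this
      rwa [← LinearMap.inl_injective e])
    (fun j j' r a b hr x hx => by
      have := hc' j j' r hr _ hx
      rwa [e3 _ _ _ _ a b] at this)
    (fun y hy => by
      rw [← Finset.univ_sum_single y, map_sum]
      refine Submodule.sum_mem _ fun p _ => ?_
      have := hc' p.1 i p.2 (p.2.2.trans_eq (hs _ _)) _ (mem_tilde.mp hy p)
      rwa [e2] at this)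
    (fun k hk => mem_tilde.mpr fun p => by
      have := hc' i p.1 p.2 p.2.2 _ hk
      rwa [e1] at this)
  rw [← hd] at this
  refine ⟨this.1, fun h => (this.2 h).imp (fun h j => ?_) fun h j => ?_⟩
  · change N₀ j = ⊥
    by_cases a : j = i
    · rw [a, n1, h.1, Submodule.map_bot]
    · rw [n2 _ a, h.2 _ a, Submodule.map_bot]
  · change N₀ j = M' j
    by_cases a : j = i
    · rw [a, n1, h.1, m1]
    · rw [n2 _ a, h.2 _ a, m2 _ a]

omit hs h0 in
theorem dimS_update (N : J → Submodule ℚ P.T) (S : Submodule ℚ P.T) :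
    dimS (update N i S) = update (dimS N) i (finrank ℚ S) := by
  funext j
  by_cases a : j = i
  · subst a; rw [dimS, update_self, update_self]
  · rw [dimS, update_of_ne a, update_of_ne a]; rfl

omit hs h0 in
theorem update_eq_add (x : J → ℝ) (a b : ℝ) :
    update x i a = update x i b + (a - b) • Pi.single i 1 := by
  funext j
  by_cases h : j = i
  · subst h; simp
  · simp [h]

theorem refl_update {R : (J → ℝ) →ₗ[ℝ] (J → ℝ)}
    (hR : ∀ x, R x = x - (2 * x i - ∑ j, C i j * x j) • Pi.single i 1) (x : J → ℝ) (a : ℝ) :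
    R (update x i a) = update x i (∑ j, C i j * x j - a) := by
  have : ∑ j, (C i j : ℝ) * update x i a j = ∑ j, C i j * x j :=
    Finset.sum_congr rfl fun j _ => by
      by_cases h : j = i
      · simp [h, h0]
      · rw [update_of_ne h]
  rw [hR, this]
  funext j
  by_cases h : j = i
  · subst h; simp; ring
  · simp [h]

theorem reflect {θ : (J → ℝ) →ₗ[ℝ] ℝ} (hP : P.Stable θ) {j₀ : J} (hj₀ : j₀ ≠ i)
    (hM : P.M j₀ ≠ ⊥) (hlt : ∑ j, C i j * dimS P.M j < 2 * dimS P.M i)
    {R : (J → ℝ) →ₗ[ℝ] (J → ℝ)}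
    (hR : ∀ x, R x = x - (2 * x i - ∑ j, C i j * x j) • Pi.single i 1) :
    θ (Pi.single i 1) ≠ 0 ∧ ∃ P' : PMod C, dimS P'.M = R (dimS P.M) ∧ P'.Stable (θ ∘ₗ R) := by
  have hRR : R (R (dimS P.M)) = dimS P.M := by
    conv_lhs => rw [← update_eq_self i (dimS P.M), refl_update hs h0 hR, refl_update hs h0 hR]
    rw [sub_sub_cancel, update_eq_self]
  have a1 : P.M i ⊓ LinearMap.ker (P.out i) ≠ ⊥ → θ (Pi.single i 1) < 0 := by
    intro hne
    have h := hP.2 (update (fun _ => ⊥) i (P.M i ⊓ LinearMap.ker (P.out i))) (fun j => by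
      by_cases a : j = i
      · subst a; simp
      · simp [update_of_ne a]) (fun j j' r hr x hx => by
      by_cases a : j = i
      · subst a
        rw [update_self] at hx
        have : P.f j j' r x = 0 := congrFun (LinearMap.mem_ker.mp hx.2) ⟨j', ⟨r, hr⟩⟩
        rw [this]; exact Submodule.zero_mem _
      · rw [update_of_ne a, Submodule.mem_bot] at hx
        rw [hx, map_zero]; exact Submodule.zero_mem _)
    have e : dimS (update (fun _ => ⊥) i (P.M i ⊓ LinearMap.ker (P.out i))) =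
        (finrank ℚ (P.M i ⊓ LinearMap.ker (P.out i) : Submodule ℚ P.T) : ℝ) • Pi.single i 1 := by
      rw [dimS_update]
      funext j
      by_cases a : j = i
      · subst a; simp
      · simp [dimS, a]
    rw [e, map_smul, smul_eq_mul] at h
    have hpos : (0 : ℝ) < finrank ℚ (P.M i ⊓ LinearMap.ker (P.out i) : Submodule ℚ P.T) := by
      exact_mod_cast Nat.pos_of_ne_zero fun h => hne (Submodule.finrank_eq_zero.mp h)
    have h2 : θ (Pi.single i 1) ≤ 0 := nonpos_of_mul_nonpos_right h.1 hpos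
    refine h2.lt_of_ne fun e0 => ?_
    rcases h.2 (by rw [e0, mul_zero]) with h3 | h3
    · exact hne (by simpa using h3 i)
    · exact hM (by simpa [update_of_ne hj₀] using (h3 j₀).symm)
  have hle : (P.tilde i P.M).map (P.inn i) ≤ P.M i := by
    rintro _ ⟨y, hy, rfl⟩; exact inn_mem hs h0 hy
  have a2 : (P.tilde i P.M).map (P.inn i) ≠ P.M i → 0 < θ (Pi.single i 1) := by
    intro hne
    have h := hP.2 (update P.M i ((P.tilde i P.M).map (P.inn i))) (fun j => by
      by_cases a : j = i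
      · subst a; simpa using hle
      · simp [update_of_ne a]) (fun j j' r hr x hx => by
      have hx' : x ∈ P.M j := by
        by_cases a : j = i
        · subst a; rw [update_self] at hx; exact hle hx
        · rwa [update_of_ne a] at hx
      by_cases b : j' = i
      · subst b
        rw [update_self]
        exact ⟨_, single_mem_tilde ⟨j, ⟨r, hs _ _ ▸ hr⟩⟩ hx', inn_single _ _⟩
      · rw [update_of_ne b]; exact P.maps _ _ _ hr x hx')
    rw [dimS_update, update_eq_add _ _ (dimS P.M i), update_eq_self, map_add, map_smul, hP.1,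
      zero_add, smul_eq_mul] at h
    have hneg : (finrank ℚ ((P.tilde i P.M).map (P.inn i)) : ℝ) - dimS P.M i < 0 := by
      rw [sub_neg, dimS]
      exact_mod_cast Submodule.finrank_lt_finrank_of_lt (lt_of_le_of_ne hle hne)
    have h2 : 0 ≤ θ (Pi.single i 1) := by
      by_contra hc
      nlinarith [h.1, not_le.mp hc]
    refine h2.lt_of_ne fun e0 => ?_
    rcases h.2 (by rw [← e0, mul_zero]) with h3 | h3
    · exact hM (by simpa [update_of_ne hj₀] using h3 j₀)
    · exact hne (by simpa using h3 i)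
  have a3 : P.M i ⊓ LinearMap.ker (P.out i) ≠ ⊥ ∨ (P.tilde i P.M).map (P.inn i) ≠ P.M i := by
    by_contra hc
    push Not at hc
    have b1 := finrank_map_add_inf (P.out i) (P.M i)
    have b2 := finrank_map_add_inf (P.inn i) (P.tilde i P.M)
    have b3 : (P.M i).map (P.out i) ≤ P.tilde i P.M ⊓ LinearMap.ker (P.inn i) := by
      rintro _ ⟨x, hx, rfl⟩; exact ⟨out_mem hx, inn_out hx⟩
    have b4 := Submodule.finrank_mono b3
    rw [hc.1, finrank_bot] at b1
    rw [hc.2] at b2
    rw [← finrank_tilde, dimS] at hlt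
    have : 2 * finrank ℚ (P.M i) ≤ finrank ℚ (P.tilde i P.M) := by omega
    have : (2 * finrank ℚ (P.M i) : ℝ) ≤ finrank ℚ (P.tilde i P.M) := by exact_mod_cast this
    linarith
  have a4 : θ (Pi.single i 1) ≠ 0 := a3.elim (fun h => (a1 h).ne) fun h => (a2 h).ne'
  refine ⟨a4, ?_⟩
  rcases lt_or_gt_of_ne a4 with hθ | hθ
  · have hsurj : (P.tilde i P.M).map (P.inn i) = P.M i := by
      by_contra h; linarith [a2 h]
    obtain ⟨P', hd, hst⟩ := exists_replace hs h0 (P := P) (i := i)
      (P.tilde i P.M ⊓ LinearMap.ker (P.inn i)) (P.out i ∘ₗ P.inn i) LinearMap.id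
      (fun y hy => ⟨out_mem (inn_mem hs h0 hy), inn_out (inn_mem hs h0 hy)⟩) (fun k hk => hk.1)
      (fun k hk => by rw [LinearMap.id_apply, LinearMap.comp_apply, hk.2, map_zero])
      (fun _ _ => rfl)
    have hd' : dimS P'.M = R (dimS P.M) := by
      have b2 := finrank_map_add_inf (P.inn i) (P.tilde i P.M)
      rw [hsurj] at b2
      conv_rhs => rw [← update_eq_self i (dimS P.M), refl_update hs h0 hR]
      rw [hd, ← finrank_tilde, ← b2, dimS]; push_cast; congr 1; ring
    refine ⟨P', hd', hst _ (by rw [hd', LinearMap.comp_apply, hRR, hP.1]) ?_⟩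
    intro N Ni n1 n2 n3 n4 n5
    have h := hP.2 (update N i ((P.tilde i N).map (P.inn i))) (fun j => by
      by_cases a : j = i
      · subst a; rw [update_self]
        exact (Submodule.map_mono (tilde_mono hs h0 n2)).trans hle
      · rw [update_of_ne a]; exact n2 j a) (fun j j' r hr x hx => by
      by_cases a : j = i
      · subst a
        rw [update_self] at hx
        obtain ⟨y, hy, rfl⟩ := hx
        rw [update_of_ne (ed_ne hs h0 (⟨j', ⟨r, hr⟩⟩ : Ed C j))]
        exact mem_tilde.mp (n5 _ (n4 y hy)) ⟨j', ⟨r, hr⟩⟩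
      rw [update_of_ne a] at hx
      by_cases b : j' = i
      · subst b
        rw [update_self]
        exact ⟨_, single_mem_tilde ⟨j, ⟨r, hs _ _ ▸ hr⟩⟩ hx, inn_single _ _⟩
      · rw [update_of_ne b]; exact n3 _ _ _ a b hr x hx)
    have b2 := finrank_map_add_inf (P.inn i) (P.tilde i N)
    have b3 : Ni ≤ P.tilde i N ⊓ LinearMap.ker (P.inn i) := fun k hk => ⟨n5 k hk, (n1 hk).2⟩
    have b4 : (finrank ℚ Ni : ℝ) ≤ finrank ℚ (P.tilde i N ⊓ LinearMap.ker (P.inn i) :
        Submodule ℚ _) := by exact_mod_cast Submodule.finrank_mono b3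
    rw [LinearMap.comp_apply, refl_update hs h0 hR, ← finrank_tilde, ← b2,
      update_eq_add _ _ (finrank ℚ ((P.tilde i N).map (P.inn i))), ← dimS_update, map_add, map_smul,
      smul_eq_mul]
    push_cast
    refine ⟨by nlinarith [h.1], fun e => ?_⟩
    have b5 : Ni = P.tilde i N ⊓ LinearMap.ker (P.inn i) := by
      refine Submodule.eq_of_le_of_finrank_le b3 ?_
      have : (finrank ℚ (P.tilde i N ⊓ LinearMap.ker (P.inn i) : Submodule ℚ _) : ℝ) ≤
        finrank ℚ Ni := by nlinarith [h.1]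
      exact_mod_cast this
    rcases h.2 (by nlinarith [h.1]) with h3 | h3
    · have h4 : ∀ j, j ≠ i → N j = ⊥ := fun j a => by simpa [update_of_ne a] using h3 j
      refine Or.inl ⟨?_, h4⟩
      rw [eq_bot_iff]
      intro k hk
      funext p
      have := mem_tilde.mp (n5 k hk) p
      rwa [h4 _ (ed_ne hs h0 p)] at this
    · have h4 : ∀ j, j ≠ i → N j = P.M j := fun j a => by simpa [update_of_ne a] using h3 j
      exact Or.inr ⟨by rw [b5, tilde_congr hs h0 h4], h4⟩
  · have hinj : P.M i ⊓ LinearMap.ker (P.out i) = ⊥ := by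
      by_contra h; linarith [a1 h]
    set Q := (P.M i).map (P.out i) with hQ
    have hQle : Q ≤ P.tilde i P.M := by rintro _ ⟨x, hx, rfl⟩; exact out_mem hx
    have hker : Q ≤ LinearMap.ker (P.out i ∘ₗ P.inn i) := by
      rintro _ ⟨x, hx, rfl⟩
      rw [LinearMap.mem_ker, LinearMap.comp_apply, inn_out hx, map_zero]
    obtain ⟨P', hd, hst⟩ := exists_replace hs h0 (P := P) (i := i)
      ((P.tilde i P.M).map Q.mkQ) Q.mkQ (Q.liftQ _ hker)
      (fun y hy => ⟨y, hy, rfl⟩)
      (by rintro _ ⟨y, hy, rfl⟩; exact out_mem (inn_mem hs h0 hy))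
      (by
        rintro _ ⟨y, hy, rfl⟩
        exact (Submodule.Quotient.mk_eq_zero Q).mpr ⟨_, inn_mem hs h0 hy, rfl⟩)
      (fun _ _ => rfl)
    have hd' : dimS P'.M = R (dimS P.M) := by
      have b1 := finrank_map_add_inf (P.out i) (P.M i)
      have b2 := finrank_map_add_inf Q.mkQ (P.tilde i P.M)
      rw [hinj, finrank_bot, add_zero, ← hQ] at b1
      rw [Submodule.ker_mkQ, inf_eq_right.mpr hQle, b1] at b2
      conv_rhs => rw [← update_eq_self i (dimS P.M), refl_update hs h0 hR]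
      rw [hd, ← finrank_tilde, ← b2, dimS]; push_cast; congr 1; ring
    refine ⟨P', hd', hst _ (by rw [hd', LinearMap.comp_apply, hRR, hP.1]) ?_⟩
    intro N Ni n1 n2 n3 n4 n5
    have h := hP.2 (update N i (P.M i ⊓ (P.tilde i N).comap (P.out i))) (fun j => by
      by_cases a : j = i
      · subst a; rw [update_self]; exact inf_le_left
      · rw [update_of_ne a]; exact n2 j a) (fun j j' r hr x hx => by
      by_cases a : j = i
      · subst a
        rw [update_self] at hx
        rw [update_of_ne (ed_ne hs h0 (⟨j', ⟨r, hr⟩⟩ : Ed C j))]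
        exact mem_tilde.mp hx.2 ⟨j', ⟨r, hr⟩⟩
      rw [update_of_ne a] at hx
      by_cases b : j' = i
      · subst b
        rw [update_self]
        refine ⟨P.maps _ _ _ hr x (n2 j a hx), ?_⟩
        have := n5 _ (n4 _ (single_mem_tilde ⟨j, ⟨r, hs _ _ ▸ hr⟩⟩ hx))
        change P.out j' (P.inn j' _) ∈ _ at this
        rwa [inn_single] at this
      · rw [update_of_ne b]; exact n3 _ _ _ a b hr x hx)
    have b1 := finrank_map_add_inf (P.out i) (P.M i ⊓ (P.tilde i N).comap (P.out i))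
    have b1' : P.M i ⊓ (P.tilde i N).comap (P.out i) ⊓ LinearMap.ker (P.out i) = ⊥ := by
      rw [eq_bot_iff, ← hinj]; exact inf_le_inf_right _ inf_le_left
    have b1'' : (P.M i ⊓ (P.tilde i N).comap (P.out i)).map (P.out i) = P.tilde i N ⊓ Q := by
      rw [Submodule.map_inf_eq_map_inf_comap.symm, inf_comm]
    rw [b1', finrank_bot, add_zero, b1''] at b1
    have b2 := finrank_map_add_inf Q.mkQ (P.tilde i N)
    rw [Submodule.ker_mkQ, b1] at b2
    have b3 : (P.tilde i N).map Q.mkQ ≤ Ni := by rintro _ ⟨y, hy, rfl⟩; exact n4 y hy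
    have b4 : (finrank ℚ ((P.tilde i N).map Q.mkQ) : ℝ) ≤ finrank ℚ Ni := by
      exact_mod_cast Submodule.finrank_mono b3
    rw [LinearMap.comp_apply, refl_update hs h0 hR, ← finrank_tilde, ← b2,
      update_eq_add _ _ (finrank ℚ (P.M i ⊓ (P.tilde i N).comap (P.out i) : Submodule ℚ _)),
      ← dimS_update, map_add, map_smul, smul_eq_mul]
    push_cast
    refine ⟨by nlinarith [h.1], fun e => ?_⟩
    have b5 : (P.tilde i N).map Q.mkQ = Ni := by
      refine Submodule.eq_of_le_of_finrank_le b3 ?_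
      have : (finrank ℚ Ni : ℝ) ≤ finrank ℚ ((P.tilde i N).map Q.mkQ) := by nlinarith [h.1]
      exact_mod_cast this
    rcases h.2 (by nlinarith [h.1]) with h3 | h3
    · have h4 : ∀ j, j ≠ i → N j = ⊥ := fun j a => by simpa [update_of_ne a] using h3 j
      refine Or.inl ⟨?_, h4⟩
      rw [← b5, eq_bot_iff]
      rintro _ ⟨y, hy, rfl⟩
      have : y = 0 := by
        funext p
        have := mem_tilde.mp hy p
        rwa [h4 _ (ed_ne hs h0 p)] at this
      rw [this, map_zero]; exact Submodule.zero_mem _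
    · have h4 : ∀ j, j ≠ i → N j = P.M j := fun j a => by simpa [update_of_ne a] using h3 j
      exact Or.inr ⟨by rw [← b5, tilde_congr hs h0 h4], h4⟩

end PMod

end Pool.Agent.MP_d5a4a4_al
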