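import Mathlib

/-!
Representations of a finite quiver over the rationals: Hom, Ext, the Euler form, short exact
sequences.
-/

namespace Pool.Agent.MP_d5a4a4_al

open Module Function

set_option linter.unusedSectionVars false

/-- A finite-dimensional representation of the quiver with source and target maps `s`, `t`. -/
structure QRep {J Ar : Type} (s t : Ar → J) where
  V : J → Type
  [acg : ∀ j, AddCommGroup (V j)]
  [mod : ∀ j, Module ℚ (V j)]
  [fd : ∀ j, FiniteDimensional ℚ (V j)]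
  f : ∀ a, V (s a) →ₗ[ℚ] V (t a)

attribute [instance] QRep.acg QRep.mod QRep.fd

variable {J Ar : Type} [Fintype J] [Fintype Ar] {s t : Ar → J}

/-- The Euler form of the quiver. -/
def eul (s t : Ar → J) (x y : J → ℝ) : ℝ := ∑ j, x j * y j - ∑ a, x (s a) * y (t a)

theorem eul_add_left (x x' y : J → ℝ) : eul s t (x + x') y = eul s t x y + eul s t x' y := by
  simp only [eul, Pi.add_apply, add_mul, Finset.sum_add_distrib]; ring

theorem eul_add_right (x y y' : J → ℝ) : eul s t x (y + y') = eul s t x y + eul s t x y' := by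
  simp only [eul, Pi.add_apply, mul_add, Finset.sum_add_distrib]; ring

theorem eul_smul_left (c : ℝ) (x y : J → ℝ) : eul s t (c • x) y = c * eul s t x y := by
  simp only [eul, Pi.smul_apply, smul_eq_mul, mul_sub, Finset.mul_sum, mul_assoc]

theorem eul_smul_right (c : ℝ) (x y : J → ℝ) : eul s t x (c • y) = c * eul s t x y := by
  simp only [eul, Pi.smul_apply, smul_eq_mul, mul_sub, Finset.mul_sum, mul_left_comm]

theorem eul_op (x y : J → ℝ) : eul t s y x = eul s t x y := by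
  simp only [eul, mul_comm]

namespace QRep

/-- Degree zero cochains. -/
abbrev C0 (X Y : QRep s t) := ∀ j, X.V j →ₗ[ℚ] Y.V j

/-- Degree one cochains. -/
abbrev C1 (X Y : QRep s t) := ∀ a, X.V (s a) →ₗ[ℚ] Y.V (t a)

/-- The differential. -/
def d (X Y : QRep s t) : C0 X Y →ₗ[ℚ] C1 X Y where
  toFun φ a := φ (t a) ∘ₗ X.f a - Y.f a ∘ₗ φ (s a)
  map_add' φ ψ := by
    funext a; simp only [Pi.add_apply, LinearMap.add_comp, LinearMap.comp_add]; abel
  map_smul' c φ := by
    funext a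
    simp only [Pi.smul_apply, LinearMap.smul_comp, LinearMap.comp_smul, RingHom.id_apply, smul_sub]

variable {X Y Z X' Y' N : QRep s t}

theorem d_apply (φ : C0 X Y) (a : Ar) (x : X.V (s a)) :
    d X Y φ a x = φ (t a) (X.f a x) - Y.f a (φ (s a) x) := rfl

/-- Morphisms of representations. -/
def IsHom (φ : C0 X Y) : Prop := ∀ a x, φ (t a) (X.f a x) = Y.f a (φ (s a) x)

theorem mem_ker {φ : C0 X Y} : φ ∈ LinearMap.ker (d X Y) ↔ IsHom φ := by
  rw [LinearMap.mem_ker]
  constructor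
  · intro h a x
    have := congrArg (fun ξ : C1 X Y => ξ a x) h
    exact sub_eq_zero.mp this
  · intro h; funext a; ext x; exact sub_eq_zero.mpr (h a x)

theorem IsHom.comp {ψ : C0 Y Z} {φ : C0 X Y} (hψ : IsHom ψ) (hφ : IsHom φ) :
    IsHom (X := X) (Y := Z) (fun j => ψ j ∘ₗ φ j) := fun a x => by
  simp only [LinearMap.comp_apply]; rw [hφ, hψ]

theorem isHom_id : IsHom (X := X) (Y := X) (fun _ => LinearMap.id) := fun _ _ => rfl

theorem IsHom.sub {φ ψ : C0 X Y} (hφ : IsHom φ) (hψ : IsHom ψ) : IsHom (φ - ψ) :=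
  mem_ker.mp (Submodule.sub_mem _ (mem_ker.mpr hφ) (mem_ker.mpr hψ))

theorem IsHom.smul {φ : C0 X Y} (hφ : IsHom φ) (c : ℚ) : IsHom (c • φ) :=
  mem_ker.mp (Submodule.smul_mem _ _ (mem_ker.mpr hφ))

/-- Dimension vector. -/
noncomputable def dim (X : QRep s t) : J → ℝ := fun j => finrank ℚ (X.V j)

/-- Dimension of the space of morphisms. -/
noncomputable def hom (X Y : QRep s t) : ℕ := finrank ℚ (LinearMap.ker (d X Y))

/-- No nonzero morphism. -/
def HomZ (X Y : QRep s t) : Prop := ∀ φ : C0 X Y, IsHom φ → φ = 0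

/-- No nonsplit extension. -/
def ExtZ (X Y : QRep s t) : Prop := Surjective (d X Y)

theorem eul_eq (X Y : QRep s t) : eul s t X.dim Y.dim =
    (hom X Y : ℝ) + finrank ℚ (LinearMap.range (d X Y)) - finrank ℚ (C1 X Y) := by
  have h := LinearMap.finrank_range_add_finrank_ker (d X Y)
  have h0 : finrank ℚ (C0 X Y) = ∑ j, finrank ℚ (X.V j) * finrank ℚ (Y.V j) := by
    rw [finrank_pi_fintype]; simp [finrank_linearMap]
  have h1 : finrank ℚ (C1 X Y) = ∑ a, finrank ℚ (X.V (s a)) * finrank ℚ (Y.V (t a)) := by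
    rw [finrank_pi_fintype]; simp [finrank_linearMap]
  rw [h0] at h
  have h' := congrArg (Nat.cast : ℕ → ℝ) h
  rw [h1, eul, hom]
  push_cast at h' ⊢
  simp only [dim]; linarith

theorem eul_le_hom (X Y : QRep s t) : eul s t X.dim Y.dim ≤ hom X Y := by
  rw [eul_eq]
  have : (finrank ℚ (LinearMap.range (d X Y)) : ℝ) ≤ finrank ℚ (C1 X Y) := by
    exact_mod_cast Submodule.finrank_le _
  linarith

theorem ExtZ.eul (h : ExtZ X Y) : eul s t X.dim Y.dim = hom X Y := by
  rw [eul_eq, LinearMap.range_eq_top.mpr h, finrank_top]; ring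

theorem extZ_of_le (h : (hom X Y : ℝ) ≤ eul s t X.dim Y.dim) : ExtZ X Y := by
  rw [eul_eq] at h
  apply LinearMap.range_eq_top.mp
  apply Submodule.eq_top_of_finrank_eq
  have h1 : (finrank ℚ (C1 X Y) : ℝ) ≤ finrank ℚ (LinearMap.range (d X Y)) := by linarith
  exact le_antisymm (Submodule.finrank_le _) (by exact_mod_cast h1)

theorem homZ_iff : HomZ X Y ↔ hom X Y = 0 := by
  rw [hom, Submodule.finrank_eq_zero, LinearMap.ker_eq_bot']
  exact forall_congr' fun φ => by rw [← mem_ker, LinearMap.mem_ker]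

theorem HomZ.eul_nonpos (h : HomZ X Y) : eul s t X.dim Y.dim ≤ 0 := by
  have := eul_le_hom X Y
  rwa [homZ_iff.mp h, Nat.cast_zero] at this

/-- Neither morphisms nor extensions. -/
def Perp (X Y : QRep s t) : Prop := HomZ X Y ∧ ExtZ X Y

theorem Perp.eul (h : Perp X Y) : eul s t X.dim Y.dim = 0 := by
  rw [h.2.eul, homZ_iff.mp h.1, Nat.cast_zero]

theorem HomZ.perp (h : HomZ X Y) (e : eul s t X.dim Y.dim = 0) : Perp X Y :=
  ⟨h, extZ_of_le (by rw [homZ_iff.mp h, e, Nat.cast_zero])⟩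

theorem ExtZ.perp (h : ExtZ X Y) (e : Pool.Agent.MP_d5a4a4_al.eul s t X.dim Y.dim = 0) :
    Perp X Y := ⟨homZ_iff.mpr (by have := h.eul; rw [e] at this; exact_mod_cast this.symm), h⟩

theorem HomZ.of_inj {g : C0 Y' Y} (hg : IsHom g) (hi : ∀ j, Injective (g j)) (h : HomZ X Y) :
    HomZ X Y' := fun φ hφ => by
  funext j; ext x
  apply hi j
  have := congrArg (fun ψ : C0 X Y => ψ j x) (h _ (hg.comp hφ))
  simpa using this

theorem HomZ.of_surj {g : C0 X X'} (hg : IsHom g) (hs : ∀ j, Surjective (g j)) (h : HomZ X Y) :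
    HomZ X' Y := fun φ hφ => by
  funext j; ext x
  obtain ⟨x, rfl⟩ := hs j x
  exact congrArg (fun ψ : C0 X Y => ψ j x) (h _ (hφ.comp hg))

theorem ExtZ.of_surj {g : C0 Y Y'} (hg : IsHom g) (hs : ∀ j, Surjective (g j)) (h : ExtZ X Y) :
    ExtZ X Y' := by
  intro ξ
  choose σ hσ using fun j => (g j).exists_rightInverse_of_surjective (LinearMap.range_eq_top.mpr (hs j))
  obtain ⟨φ, hφ⟩ := h fun a => σ (t a) ∘ₗ ξ a
  refine ⟨fun j => g j ∘ₗ φ j, ?_⟩
  funext a; ext x
  have h1 := congrArg (fun ξ : C1 X Y => g (t a) (ξ a x)) hφ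
  have h2 := LinearMap.congr_fun (hσ (t a)) (ξ a x)
  simp only [d_apply, map_sub, LinearMap.comp_apply, LinearMap.id_apply, hg a] at h1 h2 ⊢
  rw [h1, h2]

theorem ExtZ.of_inj {g : C0 X' X} (hg : IsHom g) (hi : ∀ j, Injective (g j)) (h : ExtZ X Y) :
    ExtZ X' Y := by
  intro ξ
  choose ρ hρ using fun j => (g j).exists_leftInverse_of_injective (LinearMap.ker_eq_bot.mpr (hi j))
  obtain ⟨φ, hφ⟩ := h fun a => ξ a ∘ₗ ρ (s a)
  refine ⟨fun j => φ j ∘ₗ g j, ?_⟩
  funext a; ext x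
  have h1 := congrArg (fun ξ : C1 X Y => ξ a (g (s a) x)) hφ
  have h2 := LinearMap.congr_fun (hρ (s a)) x
  simp only [d_apply, LinearMap.comp_apply, LinearMap.id_apply, hg a] at h1 h2 ⊢
  rw [h1, h2]

theorem hom_le_of_inj {g : C0 Y' Y} (hg : IsHom g) (hi : ∀ j, Injective (g j)) :
    hom X Y' ≤ hom X Y := by
  let F : LinearMap.ker (d X Y') →ₗ[ℚ] LinearMap.ker (d X Y) :=
    { toFun := fun φ => ⟨fun j => g j ∘ₗ φ.1 j, mem_ker.mpr (hg.comp (mem_ker.mp φ.2))⟩
      map_add' := fun φ ψ => by ext j x; simp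
      map_smul' := fun c φ => by ext j x; simp }
  refine LinearMap.finrank_le_finrank_of_injective (f := F) fun φ ψ e => ?_
  ext j x
  exact hi j (congrArg (fun χ : LinearMap.ker (d X Y) => χ.1 j x) e)

/-- Short exact sequences. -/
structure SES {A B C : QRep s t} (i : C0 A B) (p : C0 B C) : Prop where
  hi : IsHom i
  hp : IsHom p
  inj : ∀ j, Injective (i j)
  surj : ∀ j, Surjective (p j)
  exact : ∀ j, Function.Exact (i j) (p j)

section SES
variable {A B C : QRep s t} {i : C0 A B} {p : C0 B C}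

theorem SES.dim (h : SES i p) : B.dim = A.dim + C.dim := by
  funext j
  have h1 := LinearMap.finrank_range_add_finrank_ker (p j)
  rw [LinearMap.range_eq_top.mpr (h.surj j), finrank_top, LinearMap.exact_iff.mp (h.exact j),
    LinearMap.finrank_range_of_inj (h.inj j)] at h1
  simp only [QRep.dim, Pi.add_apply, ← h1]; push_cast; ring

theorem SES.factor_left (h : SES i p) {φ : C0 Z B} (hφ : IsHom φ) (h0 : ∀ j x, p j (φ j x) = 0) :
    ∃ ψ : C0 Z A, IsHom ψ ∧ ∀ j x, i j (ψ j x) = φ j x := by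
  choose ρ hρ using fun j =>
    (i j).exists_leftInverse_of_injective (LinearMap.ker_eq_bot.mpr (h.inj j))
  have key : ∀ j x, i j (ρ j (φ j x)) = φ j x := fun j x => by
    obtain ⟨y, hy⟩ := (h.exact j _).mp (h0 j x)
    rw [← hy]; congr 1; exact LinearMap.congr_fun (hρ j) y
  refine ⟨fun j => ρ j ∘ₗ φ j, fun a x => h.inj _ ?_, key⟩
  simp only [LinearMap.comp_apply]
  rw [h.hi, key, key, hφ]

theorem SES.factor_right (h : SES i p) {φ : C0 B Z} (hφ : IsHom φ) (h0 : ∀ j x, φ j (i j x) = 0) :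
    ∃ ψ : C0 C Z, IsHom ψ ∧ ∀ j x, ψ j (p j x) = φ j x := by
  choose σ hσ using fun j =>
    (p j).exists_rightInverse_of_surjective (LinearMap.range_eq_top.mpr (h.surj j))
  have key : ∀ j x, φ j (σ j (p j x)) = φ j x := fun j x => by
    have : p j (σ j (p j x) - x) = 0 := by
      rw [map_sub, sub_eq_zero]; exact LinearMap.congr_fun (hσ j) _
    obtain ⟨y, hy⟩ := (h.exact j _).mp this
    rw [← sub_eq_zero, ← map_sub, ← hy, h0]
  refine ⟨fun j => φ j ∘ₗ σ j, fun a x => ?_, key⟩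
  obtain ⟨x, rfl⟩ := h.surj _ x
  simp only [LinearMap.comp_apply]
  rw [← h.hp, key, key, hφ]

theorem SES.homZ_mid (h : SES i p) (hA : HomZ Z A) (hC : HomZ Z C) : HomZ Z B := fun φ hφ => by
  obtain ⟨ψ, h1, h2⟩ := h.factor_left hφ fun j x =>
    congrArg (fun χ : C0 Z C => χ j x) (hC _ (h.hp.comp hφ))
  funext j; ext x
  rw [← h2, hA ψ h1]; simp

theorem SES.homZ_mid' (h : SES i p) (hA : HomZ A Z) (hC : HomZ C Z) : HomZ B Z := fun φ hφ => by
  obtain ⟨ψ, h1, h2⟩ := h.factor_right hφ fun j x =>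
    congrArg (fun χ : C0 A Z => χ j x) (hA _ (hφ.comp h.hi))
  funext j; ext x
  rw [← h2, hC ψ h1]; simp

theorem SES.perp_mid (h : SES i p) (hA : Perp Z A) (hC : Perp Z C) : Perp Z B :=
  (h.homZ_mid hA.1 hC.1).perp (by rw [h.dim, eul_add_right, hA.eul, hC.eul, add_zero])

theorem SES.perp_left (h : SES i p) (hB : Perp Z B) (hC : Perp Z C) : Perp Z A :=
  (hB.1.of_inj h.hi h.inj).perp (by
    have := hB.eul; rwa [h.dim, eul_add_right, hC.eul, add_zero] at this)

theorem SES.perp_right (h : SES i p) (hA : Perp Z A) (hB : Perp Z B) : Perp Z C :=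
  (hB.2.of_surj h.hp h.surj).perp (by
    have := hB.eul; rwa [h.dim, eul_add_right, hA.eul, zero_add] at this)

theorem SES.perp_mid' (h : SES i p) (hA : Perp A Z) (hC : Perp C Z) : Perp B Z :=
  (h.homZ_mid' hA.1 hC.1).perp (by rw [h.dim, eul_add_left, hA.eul, hC.eul, add_zero])

theorem SES.perp_left' (h : SES i p) (hB : Perp B Z) (hC : Perp C Z) : Perp A Z :=
  (hB.2.of_inj h.hi h.inj).perp (by
    have := hB.eul; rwa [h.dim, eul_add_left, hC.eul, add_zero] at this)

theorem SES.perp_right' (h : SES i p) (hA : Perp A Z) (hB : Perp B Z) : Perp C Z :=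
  (hB.1.of_surj h.hp h.surj).perp (by
    have := hB.eul; rwa [h.dim, eul_add_left, hA.eul, zero_add] at this)

theorem SES.extend (h : SES i p) (hC : ExtZ C N) {φ : C0 A N} (hφ : IsHom φ) :
    ∃ ψ : C0 B N, IsHom ψ ∧ ∀ j x, ψ j (i j x) = φ j x := by
  choose ρ hρ using fun j =>
    (i j).exists_leftInverse_of_injective (LinearMap.ker_eq_bot.mpr (h.inj j))
  choose σ hσ using fun j =>
    (p j).exists_rightInverse_of_surjective (LinearMap.range_eq_top.mpr (h.surj j))
  have hρ' : ∀ j x, ρ j (i j x) = x := fun j x => LinearMap.congr_fun (hρ j) x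
  set ξ := d B N fun j => φ j ∘ₗ ρ j with hξ
  have h0 : ∀ a x, ξ a (i (s a) x) = 0 := fun a x => by
    rw [hξ, d_apply, ← h.hi]; simp only [LinearMap.comp_apply, hρ']; rw [hφ, sub_self]
  have key : ∀ a x, ξ a (σ (s a) (p (s a) x)) = ξ a x := fun a x => by
    have : p (s a) (σ (s a) (p (s a) x) - x) = 0 := by
      rw [map_sub, sub_eq_zero]; exact LinearMap.congr_fun (hσ _) _
    obtain ⟨y, hy⟩ := (h.exact _ _).mp this
    rw [← sub_eq_zero, ← map_sub, ← hy, h0]
  obtain ⟨χ, hχ⟩ := hC fun a => ξ a ∘ₗ σ (s a)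
  refine ⟨fun j => φ j ∘ₗ ρ j - χ j ∘ₗ p j, fun a x => ?_, fun j x => ?_⟩
  · have h1 := congrArg (fun ζ : C1 C N => ζ a (p (s a) x)) hχ
    simp only [LinearMap.comp_apply, key] at h1
    rw [hξ, d_apply, d_apply] at h1
    simp only [LinearMap.comp_apply, LinearMap.sub_apply, map_sub, h.hp a] at h1 ⊢
    linear_combination (norm := abel) -h1
  · simp [hρ', (h.exact j).apply_apply_eq_zero]

end SES

/-- A subrepresentation. -/
def sub (X : QRep s t) (N : ∀ j, Submodule ℚ (X.V j))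
    (hN : ∀ a, ∀ x ∈ N (s a), X.f a x ∈ N (t a)) : QRep s t where
  V j := N j
  f a := (X.f a).restrict (hN a)

/-- A quotient representation. -/
def quot (X : QRep s t) (N : ∀ j, Submodule ℚ (X.V j))
    (hN : ∀ a, ∀ x ∈ N (s a), X.f a x ∈ N (t a)) : QRep s t where
  V j := X.V j ⧸ N j
  f a := (N (s a)).mapQ (N (t a)) (X.f a) (hN a)

/-- The inclusion of a subrepresentation. -/
def incl (X : QRep s t) (N : ∀ j, Submodule ℚ (X.V j))
    (hN : ∀ a, ∀ x ∈ N (s a), X.f a x ∈ N (t a)) : C0 (X.sub N hN) X := fun j => (N j).subtype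

theorem isHom_incl (X : QRep s t) (N : ∀ j, Submodule ℚ (X.V j))
    (hN : ∀ a, ∀ x ∈ N (s a), X.f a x ∈ N (t a)) : IsHom (X.incl N hN) := fun _ _ => rfl

theorem incl_inj (X : QRep s t) (N : ∀ j, Submodule ℚ (X.V j))
    (hN : ∀ a, ∀ x ∈ N (s a), X.f a x ∈ N (t a)) (j : J) : Injective (X.incl N hN j) :=
  Subtype.val_injective

theorem IsHom.ker_closed {φ : C0 X Y} (h : IsHom φ) (a : Ar) :
    ∀ x ∈ LinearMap.ker (φ (s a)), X.f a x ∈ LinearMap.ker (φ (t a)) := fun x hx => by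
  rw [LinearMap.mem_ker] at hx ⊢; rw [h, hx, map_zero]

theorem IsHom.range_closed {φ : C0 X Y} (h : IsHom φ) (a : Ar) :
    ∀ x ∈ LinearMap.range (φ (s a)), Y.f a x ∈ LinearMap.range (φ (t a)) := by
  rintro _ ⟨x, rfl⟩; exact ⟨_, h a x⟩

/-- Kernel. -/
def IsHom.kerRep {φ : C0 X Y} (h : IsHom φ) : QRep s t :=
  X.sub (fun j => LinearMap.ker (φ j)) h.ker_closed

/-- Image. -/
def IsHom.imRep {φ : C0 X Y} (h : IsHom φ) : QRep s t :=
  Y.sub (fun j => LinearMap.range (φ j)) h.range_closed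

/-- Cokernel. -/
def IsHom.cokerRep {φ : C0 X Y} (h : IsHom φ) : QRep s t :=
  Y.quot (fun j => LinearMap.range (φ j)) h.range_closed

/-- Inclusion of the kernel. -/
def IsHom.kerIncl {φ : C0 X Y} (h : IsHom φ) : C0 h.kerRep X :=
  X.incl (fun j => LinearMap.ker (φ j)) h.ker_closed

/-- Inclusion of the image. -/
def IsHom.imIncl {φ : C0 X Y} (h : IsHom φ) : C0 h.imRep Y :=
  Y.incl (fun j => LinearMap.range (φ j)) h.range_closed

/-- Projection to the cokernel. -/
def IsHom.cokerProj {φ : C0 X Y} (h : IsHom φ) : C0 Y h.cokerRep :=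
  fun j => (LinearMap.range (φ j)).mkQ

/-- Projection to the image. -/
def IsHom.toIm {φ : C0 X Y} (h : IsHom φ) : C0 X h.imRep := fun j => (φ j).rangeRestrict

theorem IsHom.isHom_imIncl {φ : C0 X Y} (h : IsHom φ) : IsHom h.imIncl := fun _ _ => rfl

theorem IsHom.imIncl_inj {φ : C0 X Y} (h : IsHom φ) (j : J) : Injective (h.imIncl j) :=
  Subtype.val_injective

theorem IsHom.ses_ker {φ : C0 X Y} (h : IsHom φ) (hs : ∀ j, Surjective (φ j)) :
    SES h.kerIncl φ :=
  ⟨fun _ _ => rfl, h, fun _ => Subtype.val_injective, hs,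
    fun j => LinearMap.exact_subtype_ker_map (φ j)⟩

theorem IsHom.ses_coker {φ : C0 X Y} (h : IsHom φ) (hi : ∀ j, Injective (φ j)) :
    SES φ h.cokerProj :=
  ⟨h, fun _ _ => rfl, hi, fun _ => Submodule.mkQ_surjective _,
    fun j => LinearMap.exact_map_mkQ_range (φ j)⟩

theorem IsHom.ses_im {φ : C0 X Y} (h : IsHom φ) : SES h.kerIncl h.toIm :=
  ⟨fun _ _ => rfl, fun a x => Subtype.ext (h a x), fun _ => Subtype.val_injective,
    fun j => (φ j).surjective_rangeRestrict, fun j y =>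
      Subtype.ext_iff.trans (LinearMap.exact_subtype_ker_map (φ j) y)⟩

/-- All endomorphisms are scalars. -/
def Brick (X : QRep s t) : Prop := ∀ φ : C0 X X, IsHom φ → ∃ c : ℚ, ∀ j x, φ j x = c • x

/-- Exceptional representations. -/
def Exc (X : QRep s t) : Prop := ExtZ X X ∧ eul s t X.dim X.dim = 1

theorem Exc.exists_ne (h : Exc X) : ∃ j, ∃ x : X.V j, x ≠ 0 := by
  by_contra hc
  push Not at hc
  have : HomZ X X := fun φ _ => by funext j; ext x; exact hc j _
  have := this.eul_nonpos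
  rw [h.2] at this; linarith

theorem Exc.brick (h : Exc X) : Brick X := by
  intro φ hφ
  have h1 : hom X X = 1 := by have := h.1.eul; rw [h.2] at this; exact_mod_cast this.symm
  obtain ⟨j, x, hx⟩ := h.exists_ne
  have h2 : (⟨fun _ => LinearMap.id, mem_ker.mpr isHom_id⟩ : LinearMap.ker (d X X)) ≠ 0 := fun e =>
    hx (congrArg (fun χ : LinearMap.ker (d X X) => χ.1 j x) e)
  obtain ⟨c, hc⟩ := (finrank_eq_one_iff_of_nonzero' _ h2).mp h1 ⟨φ, mem_ker.mpr hφ⟩
  exact ⟨c, fun j x => (congrArg (fun χ : LinearMap.ker (d X X) => χ.1 j x) hc).symm⟩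

theorem Brick.exc (h : Brick X) (e : eul s t X.dim X.dim = 1) : Exc X := by
  refine ⟨extZ_of_le ?_, e⟩
  rw [e]
  have : hom X X ≤ 1 := finrank_le_one
    (⟨fun _ => LinearMap.id, mem_ker.mpr isHom_id⟩ : LinearMap.ker (d X X)) fun φ => by
      obtain ⟨c, hc⟩ := h φ.1 (mem_ker.mp φ.2)
      exact ⟨c, by ext j x; exact (hc j x).symm⟩
  exact_mod_cast this

/-- A form of the Happel and Ringel lemma. -/
theorem inj_or_zero (hY : Brick Y) (hXY : ExtZ X Y) {g : C0 Y Z} (hg : IsHom g)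
    (hZ : ∀ N, ExtZ X N → ExtZ Z N) (h0 : HomZ X hg.imRep) :
    (∀ j, Injective (g j)) ∨ g = 0 := by
  have hs := hg.ses_im
  have h1 : ExtZ X hg.kerRep := by
    apply extZ_of_le
    have a1 := hom_le_of_inj (X := X) hs.hi hs.inj
    have a2 := hXY.eul
    rw [hs.dim, eul_add_right] at a2
    have a3 := h0.eul_nonpos
    have a4 : (hom X hg.kerRep : ℝ) ≤ hom X Y := by exact_mod_cast a1
    linarith
  have h2 := (hZ _ h1).of_inj hg.isHom_imIncl hg.imIncl_inj
  obtain ⟨r, hr, hr'⟩ := hs.extend h2 isHom_id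
  obtain ⟨c, hc⟩ := hY _ (hs.hi.comp hr)
  by_cases hc1 : c = 1
  · right
    funext j; ext x
    have := hc j x
    rw [hc1, one_smul] at this
    rw [← this]; exact (r j x).2
  · left
    intro j
    rw [← LinearMap.ker_eq_bot, eq_bot_iff]
    intro x hx
    have h3 := hc j x
    have h4 := congrArg Subtype.val (hr' j ⟨x, hx⟩)
    have h5 : x = c • x := h4.symm.trans h3
    have h6 : (1 - c) • x = 0 := by rw [sub_smul, one_smul, ← h5, sub_self]
    exact (smul_eq_zero.mp h6).resolve_left (sub_ne_zero.mpr (Ne.symm hc1))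

theorem inj_or_surj (hX : Brick X) (hY : Brick Y) (hXY : ExtZ X Y) {g : C0 Y X} (hg : IsHom g)
    (hne : g ≠ 0) : (∀ j, Injective (g j)) ∨ ∀ j, Surjective (g j) := by
  by_cases h0 : HomZ X hg.imRep
  · exact Or.inl ((inj_or_zero hY hXY hg (fun _ h => h) h0).resolve_right hne)
  right
  simp only [HomZ, not_forall] at h0
  obtain ⟨φ, hφ, hφ0⟩ := h0
  obtain ⟨c, hc⟩ := hX _ (hg.isHom_imIncl.comp hφ)
  have hc0 : c ≠ 0 := by
    rintro rfl
    apply hφ0; funext j; ext x
    exact Subtype.ext ((hc j x).trans (zero_smul _ _))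
  intro j x
  have := (φ j (c⁻¹ • x)).2
  have e : ((φ j (c⁻¹ • x)).1 : X.V j) = x := (hc j _).trans (by rw [smul_smul, mul_inv_cancel₀ hc0, one_smul])
  rwa [e] at this

theorem bij_of_dim {g : C0 X Y} (hd : X.dim = Y.dim)
    (h : (∀ j, Injective (g j)) ∨ ∀ j, Surjective (g j)) (j : J) : Bijective (g j) := by
  have e : finrank ℚ (X.V j) = finrank ℚ (Y.V j) := Nat.cast_injective (R := ℝ) (congrFun hd j)
  rcases h with h | h
  · exact ⟨h j, (LinearMap.injective_iff_surjective_of_finrank_eq_finrank e).mp (h j)⟩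
  · exact ⟨(LinearMap.injective_iff_surjective_of_finrank_eq_finrank e).mpr (h j), h j⟩

theorem dim_eq_of_bij {g : C0 X Y} (h : ∀ j, Bijective (g j)) : X.dim = Y.dim := by
  funext j
  simp only [dim, (LinearEquiv.ofBijective (g j) (h j)).finrank_eq]

theorem finite_not_surj {U V : Type} [AddCommGroup U] [Module ℚ U] [AddCommGroup V] [Module ℚ V]
    [FiniteDimensional ℚ V] (D₀ D₁ : U →ₗ[ℚ] V) (h : Surjective D₀) :
    {c : ℚ | ¬ Surjective (D₀ + c • D₁)}.Finite := by
  obtain ⟨r, hr⟩ := D₀.exists_rightInverse_of_surjective (LinearMap.range_eq_top.mpr h)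
  have hfin := Module.End.finite_hasEigenvalue (D₁ ∘ₗ r : Module.End ℚ V)
  refine (hfin.image fun μ => -μ⁻¹).subset fun c hc => ?_
  have hc0 : c ≠ 0 := by rintro rfl; exact hc (by simpa using h)
  refine ⟨-c⁻¹, ?_, by simp⟩
  by_contra hne
  apply hc
  have hinj : Injective ((D₀ + c • D₁) ∘ₗ r) := by
    rw [← LinearMap.ker_eq_bot, eq_bot_iff]
    intro x hx
    by_contra hx0
    apply hne
    refine Module.End.hasEigenvalue_of_hasEigenvector (x := x) ⟨?_, hx0⟩
    rw [Module.End.mem_eigenspace_iff]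
    have h1 : D₀ (r x) = x := LinearMap.congr_fun hr x
    have h2 : x + c • D₁ (r x) = 0 := by
      simpa [h1] using hx
    rw [LinearMap.comp_apply]
    have h3 : c • D₁ (r x) = -x := eq_neg_of_add_eq_zero_right h2
    rw [← one_smul ℚ (D₁ (r x)), ← inv_mul_cancel₀ hc0, mul_smul, h3]; simp
  have hs := LinearMap.injective_iff_surjective.mp hinj
  rw [LinearMap.coe_comp] at hs
  exact hs.of_comp

/-- The same spaces with other maps. -/
abbrev withMaps (X : QRep s t) (g : C1 X X) : QRep s t := { V := X.V, f := g }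

theorem exists_bij (hX : Exc X) (hY : Exc Y) (hd : X.dim = Y.dim) :
    ∃ g : C0 X Y, IsHom g ∧ ∀ j, Bijective (g j) := by
  have e : ∀ j, X.V j ≃ₗ[ℚ] Y.V j := fun j =>
    LinearEquiv.ofFinrankEq _ _ (Nat.cast_injective (R := ℝ) (congrFun hd j))
  let g₁ : C1 X X := fun a => (e (t a)).symm.toLinearMap ∘ₗ Y.f a ∘ₗ (e (s a)).toLinearMap
  have he : IsHom (X := X.withMaps g₁) (Y := Y) (fun j => (e j).toLinearMap) := fun a x => by
    simp [g₁]
  have he' : IsHom (X := Y) (Y := X.withMaps g₁) (fun j => (e j).symm.toLinearMap) :=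
    fun a x => by simp [g₁]
  have hX₁ : Exc (X.withMaps g₁) :=
    ⟨(hY.1.of_inj he fun j => (e j).injective).of_surj he' fun j => (e j).symm.surjective, hX.2⟩
  let L : C0 X X →ₗ[ℚ] C1 X X :=
    { toFun := fun φ a => φ (t a) ∘ₗ (g₁ a - X.f a)
      map_add' := fun φ ψ => by funext a; simp [LinearMap.add_comp]
      map_smul' := fun c φ => by funext a; simp [LinearMap.smul_comp] }
  let R : C0 X X →ₗ[ℚ] C1 X X :=
    { toFun := fun φ a => (g₁ a - X.f a) ∘ₗ φ (s a)
      map_add' := fun φ ψ => by funext a; simp [LinearMap.comp_add]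
      map_smul' := fun c φ => by funext a; simp [LinearMap.comp_smul] }
  have f1 := finite_not_surj (d X X) L hX.1
  have f2 := finite_not_surj (d X X) (L - R) hX.1
  have f3 := (finite_not_surj (U := C0 X X) (V := C1 X X) (d (X.withMaps g₁) (X.withMaps g₁)) R
    hX₁.1).image fun c => 1 - c
  obtain ⟨c, hc⟩ := ((f1.union f2).union f3).exists_notMem
  simp only [Set.mem_union, not_or, Set.mem_ofPred_eq, not_not, Set.mem_image, not_exists,
    not_and] at hc
  obtain ⟨⟨c1, c2⟩, c3⟩ := hc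
  have c4 : Surjective ((d (X.withMaps g₁) (X.withMaps g₁) : C0 X X →ₗ[ℚ] C1 X X) + (1 - c) • R) := by
    by_contra h; exact c3 (1 - c) h (by ring)
  let Xc := X.withMaps fun a => X.f a + c • (g₁ a - X.f a)
  have b1 : ExtZ Xc X := by
    have : (d Xc X : C0 X X →ₗ[ℚ] C1 X X) = d X X + c • L := by
      ext φ a x; simp [d_apply, Xc, L]; abel
    rw [ExtZ]; exact this ▸ c1
  have b2 : Exc Xc := by
    refine ⟨?_, hX.2⟩
    have : (d Xc Xc : C0 X X →ₗ[ℚ] C1 X X) = d X X + c • (L - R) := by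
      ext φ a x; simp [d_apply, Xc, L, R, smul_sub]; abel
    rw [ExtZ]; exact this ▸ c2
  have b3 : ExtZ (X.withMaps g₁) Xc := by
    have : (d (X.withMaps g₁) Xc : C0 X X →ₗ[ℚ] C1 X X) =
        (d (X.withMaps g₁) (X.withMaps g₁) : C0 X X →ₗ[ℚ] C1 X X) + (1 - c) • R := by
      ext φ a x; simp [d_apply, Xc, R, smul_sub, sub_smul]; abel
    rw [ExtZ]; exact this ▸ c4
  have ex : ∀ P Q : QRep s t, Exc P → Exc Q → P.dim = Q.dim → ExtZ Q P →
      ∃ g : C0 P Q, IsHom g ∧ ∀ j, Bijective (g j) := by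
    intro P Q hP hQ hPQ hE
    have : ¬ HomZ P Q := fun h => by
      have := h.eul_nonpos
      rw [← hPQ, hP.2] at this; linarith
    simp only [HomZ, not_forall] at this
    obtain ⟨g, hg, hg0⟩ := this
    exact ⟨g, hg, bij_of_dim hPQ (inj_or_surj hQ.brick hP.brick hE hg hg0)⟩
  obtain ⟨u, hu, hu'⟩ := ex X Xc hX b2 rfl b1
  obtain ⟨v, hv, hv'⟩ := ex Xc (X.withMaps g₁) b2 hX₁ rfl b3
  exact ⟨_, he.comp (hv.comp hu), fun j => (e j).bijective.comp ((hv' j).comp (hu' j))⟩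

theorem Perp.of_bij_left {g : C0 X X'} (hg : IsHom g) (hb : ∀ j, Bijective (g j)) (h : Perp X Y) :
    Perp X' Y := (h.1.of_surj hg fun j => (hb j).2).perp (dim_eq_of_bij hb ▸ h.eul)

theorem Perp.of_bij_left' {g : C0 X' X} (hg : IsHom g) (hb : ∀ j, Bijective (g j)) (h : Perp X Y) :
    Perp X' Y := (h.2.of_inj hg fun j => (hb j).1).perp (dim_eq_of_bij hb ▸ h.eul)

theorem Perp.of_bij_right {g : C0 Y Y'} (hg : IsHom g) (hb : ∀ j, Bijective (g j)) (h : Perp X Y) :
    Perp X Y' := (h.2.of_surj hg fun j => (hb j).2).perp (dim_eq_of_bij hb ▸ h.eul)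

theorem Perp.of_bij_right' {g : C0 Y' Y} (hg : IsHom g) (hb : ∀ j, Bijective (g j)) (h : Perp X Y) :
    Perp X Y' := (h.1.of_inj hg fun j => (hb j).1).perp (dim_eq_of_bij hb ▸ h.eul)

theorem Perp.congr (hX : Exc X) (hX' : Exc X') (hY : Exc Y) (hY' : Exc Y') (e1 : X.dim = X'.dim)
    (e2 : Y.dim = Y'.dim) (h : Perp X Y) : Perp X' Y' := by
  obtain ⟨g, hg, hb⟩ := exists_bij hX hX' e1
  obtain ⟨g', hg', hb'⟩ := exists_bij hY hY' e2
  exact (h.of_bij_left hg hb).of_bij_right hg' hb'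

end QRep

end Pool.Agent.MP_d5a4a4_al
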